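import Pool.Agent.Helper481.MB6

/-! The functional `F(K) = ∫_K |K + [0,t]| dt` and Steiner symmetrisation. -/

set_option autoImplicit false
open MeasureTheory Set Module
open scoped ENNReal RealInnerProductSpace

namespace Pool.Agent.TH582.Mass

open Pool.Agent.Helper481.RH

/-- the functional `∫_K |K + [0,t]| dt` -/
noncomputable def FF {X : Type*} [AddCommGroup X] [Module ℝ X] [MeasureSpace X] (K : Set X) : ℝ≥0∞ :=
  ∫⁻ t in K, volume (seg K t)

lemma seg_mono {X : Type*} [AddCommGroup X] [Module ℝ X] {K L : Set X} (h : K ⊆ L) (t : X) :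
    seg K t ⊆ seg L t := by
  rintro _ ⟨x, hx, s, h0, h1, rfl⟩
  exact ⟨x, h hx, s, h0, h1, rfl⟩

lemma FF_mono {X : Type*} [AddCommGroup X] [Module ℝ X] [MeasureSpace X] {K L : Set X}
    (h : K ⊆ L) : FF K ≤ FF L := by
  refine (lintegral_mono fun t => measure_mono (seg_mono h t)).trans ?_
  exact lintegral_mono_set h

/-- the graph `{(t, p) : p ∈ K + [0,t]}` is closed -/
lemma seg_graph_closed {X : Type*} [NormedAddCommGroup X] [NormedSpace ℝ X] {K : Set X}
    (hK : IsCompact K) : IsClosed {q : X × X | q.2 ∈ seg K q.1} := by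
  have h1 : {q : X × X | q.2 ∈ seg K q.1} =
      Prod.fst '' {r : (X × X) × (K ×ˢ Icc (0:ℝ) 1 : Set (X × ℝ)) |
        (r.2 : X × ℝ).1 + (r.2 : X × ℝ).2 • r.1.1 = r.1.2} := by
    ext q
    constructor
    · rintro ⟨x, hx, s, h0, h1, h⟩
      exact ⟨(q, ⟨(x, s), hx, h0, h1⟩), h, rfl⟩
    · rintro ⟨⟨q', ⟨⟨x, s⟩, hx, h0, h1⟩⟩, h, rfl⟩
      exact ⟨x, hx, s, h0, h1, h⟩
  rw [h1]
  have : CompactSpace (K ×ˢ Icc (0:ℝ) 1 : Set (X × ℝ)) :=
    isCompact_iff_compactSpace.1 (hK.prod isCompact_Icc)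
  apply isClosedMap_fst_of_compactSpace
  exact isClosed_eq (by fun_prop) (by fun_prop)

lemma measurable_vol_seg {X : Type*} [NormedAddCommGroup X] [NormedSpace ℝ X]
    [MeasureSpace X] [BorelSpace X] [SecondCountableTopology X]
    [SFinite (volume : Measure X)] {K : Set X} (hK : IsCompact K) :
    Measurable fun t => volume (seg K t) := by
  have h1 := measurable_measure_prodMk_left (ν := (volume : Measure X))
    (seg_graph_closed hK).measurableSet
  exact h1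

variable {m : ℕ}

lemma measurable_len {K : Set (ℝ × (Fin m → ℝ))} (hK : IsCompact K) :
    Measurable fun q : (ℝ × (Fin m → ℝ)) × (Fin m → ℝ) => volume (fib (seg K q.1) q.2) := by
  have h0 := (seg_graph_closed hK)
  have h1 : IsClosed {r : ((ℝ × (Fin m → ℝ)) × (Fin m → ℝ)) × ℝ | (r.2, r.1.2) ∈ seg K r.1.1} :=
    h0.preimage (f := fun r : ((ℝ × (Fin m → ℝ)) × (Fin m → ℝ)) × ℝ => (r.1.1, (r.2, r.1.2)))
      (by fun_prop)
  exact measurable_measure_prodMk_left (ν := (volume : Measure ℝ)) h1.measurableSet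

/-- the key pointwise inequality -/
lemma St_len {K : Set (ℝ × (Fin m → ℝ))} (hK : IsCompact K) (hKc : Convex ℝ K)
    {μ α β : ℝ} (h : α - β = 2 * μ) (τ z : Fin m → ℝ) :
    2 * volume (fib (seg (St K) (μ, τ)) z) ≤
      volume (fib (seg K (α, τ)) z) + volume (fib (seg K (β, τ)) z) := by
  have hS := St_compact hK
  have hSc := St_convex hKc
  rcases (fib (seg (St K) (μ, τ)) z).eq_empty_or_nonempty with he | hne
  · simp only [he, measure_empty, mul_zero]; exact zero_le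
  obtain ⟨lo, hi, hαβ, hα, hβ, hI⟩ := fib_eq_Icc (seg_compact hS (μ, τ)) (seg_convex hSc (μ, τ)) hne
  obtain ⟨⟨c1, y1⟩, ⟨p1, q1, hp1, hq1, hc1⟩, s1, hs10, hs11, e1⟩ := hβ
  obtain ⟨⟨c2, y2⟩, ⟨p2, q2, hp2, hq2, hc2⟩, s2, hs20, hs21, e2⟩ := hα
  simp only at hc1 hc2 hp1 hq1 hp2 hq2
  have e1a : c1 + s1 * μ = hi := congrArg Prod.fst e1
  have e1b : y1 + s1 • τ = z := congrArg Prod.snd e1
  have e2a : c2 + s2 * μ = lo := congrArg Prod.fst e2
  have e2b : y2 + s2 • τ = z := congrArg Prod.snd e2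
  have m1 : (p1 + s1 * α, z) ∈ seg K (α, τ) :=
    ⟨(p1, y1), hp1, s1, hs10, hs11, by rw [← e1b]; rfl⟩
  have m2 : (p2 + s2 * α, z) ∈ seg K (α, τ) :=
    ⟨(p2, y2), hp2, s2, hs20, hs21, by rw [← e2b]; rfl⟩
  have m3 : (q1 + s1 * β, z) ∈ seg K (β, τ) :=
    ⟨(q1, y1), hq1, s1, hs10, hs11, by rw [← e1b]; rfl⟩
  have m4 : (q2 + s2 * β, z) ∈ seg K (β, τ) :=
    ⟨(q2, y2), hq2, s2, hs20, hs21, by rw [← e2b]; rfl⟩
  have v1 := le_volume_fib (seg_convex hKc (α, τ)) m2 m1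
  have v2 := le_volume_fib (seg_convex hKc (β, τ)) m3 m4
  refine le_trans ?_ (add_le_add v1 v2)
  refine le_trans ?_ ENNReal.ofReal_add_le
  simp only [hI]
  rw [Real.volume_Icc, show (2 : ℝ≥0∞) = ENNReal.ofReal 2 by simp, ← ENNReal.ofReal_mul (by norm_num)]
  refine ENNReal.ofReal_le_ofReal (le_of_eq ?_)
  rw [← e1a, ← e2a, hc1, hc2]
  linear_combination (s2 - s1) * h

lemma volume_seg_fib {K : Set (ℝ × (Fin m → ℝ))} (hK : IsCompact K) (t : ℝ × (Fin m → ℝ)) :
    volume (seg K t) = ∫⁻ z, volume (fib (seg K t) z) :=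
  volume_eq_lintegral_fib (seg_compact hK _).measurableSet

lemma St_vol {K : Set (ℝ × (Fin m → ℝ))} (hK : IsCompact K) (hKc : Convex ℝ K)
    {μ α β : ℝ} (h : α - β = 2 * μ) (τ : Fin m → ℝ) :
    2 * volume (seg (St K) (μ, τ)) ≤ volume (seg K (α, τ)) + volume (seg K (β, τ)) := by
  rw [volume_seg_fib (St_compact hK), volume_seg_fib hK, volume_seg_fib hK,
    ← lintegral_const_mul _ (measurable_fib (seg_compact (St_compact hK) _).measurableSet),
    ← lintegral_add_left (measurable_fib (seg_compact hK _).measurableSet)]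
  exact lintegral_mono fun z => St_len hK hKc h τ z

end Pool.Agent.TH582.Mass
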