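import Pool.Agent.TH582.Mass.A

/-! `F(St K) ≤ F(K)` and the case of equality. -/

set_option autoImplicit false
open MeasureTheory Set Module
open scoped ENNReal RealInnerProductSpace

namespace Pool.Agent.TH582.Mass

open Pool.Agent.Helper481.RH

variable {m : ℕ}

lemma lintegral_fib {K : Set (ℝ × (Fin m → ℝ))} (hK : MeasurableSet K)
    {φ : ℝ × (Fin m → ℝ) → ℝ≥0∞} (hφ : Measurable φ) :
    ∫⁻ p in K, φ p = ∫⁻ y, ∫⁻ s in fib K y, φ (s, y) := by
  rw [← lintegral_indicator hK, Measure.volume_eq_prod, lintegral_prod_symm]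
  · refine lintegral_congr fun y => ?_
    have hm : MeasurableSet (fib K y) := measurable_prodMk_right hK
    rw [← lintegral_indicator hm]
    rfl
  · exact (hφ.indicator hK).aemeasurable

lemma measurable_lintegral_fib {K : Set (ℝ × (Fin m → ℝ))} (hK : MeasurableSet K)
    {φ : ℝ × (Fin m → ℝ) → ℝ≥0∞} (hφ : Measurable φ) :
    Measurable fun y => ∫⁻ s in fib K y, φ (s, y) := by
  have h1 : Measurable (fun y : Fin m → ℝ => ∫⁻ s : ℝ, K.indicator φ (s, y)) :=
    (hφ.indicator hK).lintegral_prod_left'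
  convert h1 using 1
  ext y
  have hm : MeasurableSet (fib K y) := measurable_prodMk_right hK
  rw [← lintegral_indicator hm]
  rfl

lemma lintegral_shift {φ : ℝ → ℝ≥0∞} {p q : ℝ} :
    ∫⁻ r in Icc (-((q - p) / 2)) ((q - p) / 2), φ ((p + q) / 2 + r) = ∫⁻ s in Icc p q, φ s := by
  rw [← lintegral_indicator measurableSet_Icc, ← lintegral_indicator measurableSet_Icc,
    ← lintegral_add_left_eq_self (μ := volume) (fun s => (Icc p q).indicator φ s) ((p + q) / 2)]
  refine lintegral_congr fun r => ?_
  by_cases h : r ∈ Icc (-((q - p) / 2)) ((q - p) / 2)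
  · rw [indicator_of_mem h, indicator_of_mem]
    constructor <;> linarith [h.1, h.2]
  · rw [indicator_of_notMem h, indicator_of_notMem]
    intro h'
    exact h ⟨by linarith [h'.1], by linarith [h'.2]⟩

lemma lintegral_reflect {φ : ℝ → ℝ≥0∞} {p q : ℝ} :
    ∫⁻ r in Icc (-((q - p) / 2)) ((q - p) / 2), φ ((p + q) / 2 - r) = ∫⁻ s in Icc p q, φ s := by
  rw [← lintegral_indicator measurableSet_Icc, ← lintegral_indicator measurableSet_Icc,
    ← lintegral_sub_left_eq_self (μ := volume) (fun s => (Icc p q).indicator φ s) ((p + q) / 2)]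
  refine lintegral_congr fun r => ?_
  by_cases h : r ∈ Icc (-((q - p) / 2)) ((q - p) / 2)
  · rw [indicator_of_mem h, indicator_of_mem]
    constructor <;> linarith [h.1, h.2]
  · rw [indicator_of_notMem h, indicator_of_notMem]
    intro h'
    exact h ⟨by linarith [h'.2], by linarith [h'.1]⟩

/-- fibrewise comparison -/
lemma FF_fib {K : Set (ℝ × (Fin m → ℝ))} (hK : IsCompact K) (hKc : Convex ℝ K) (y : Fin m → ℝ) :
    (∫⁻ r in fib (St K) y, volume (seg (St K) (r, y))) ≤ ∫⁻ s in fib K y, volume (seg K (s, y)) ∧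
    ((∫⁻ s in fib K y, volume (seg K (s, y))) ≤ (∫⁻ r in fib (St K) y, volume (seg (St K) (r, y))) →
      (∫⁻ r in fib (St K) y, volume (seg (St K) (r, y))) ≠ ∞ →
      ∀ p q, fib K y = Icc p q → p ≤ q → ∀ᵐ r : ℝ, r ∈ Icc (-((q - p) / 2)) ((q - p) / 2) →
        volume (seg K ((p + q) / 2 + r, y)) + volume (seg K ((p + q) / 2 - r, y)) =
          2 * volume (seg (St K) (r, y))) := by
  have hmeas : ∀ {L : Set (ℝ × (Fin m → ℝ))}, IsCompact L →
      Measurable fun s : ℝ => volume (seg L (s, y)) := fun hL =>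
    (measurable_vol_seg hL).comp (by fun_prop)
  have hcomp : ∀ p q : ℝ, fib K y = Icc p q → p ≤ q →
      2 * (∫⁻ r in fib (St K) y, volume (seg (St K) (r, y))) ≤
      (∫⁻ r in Icc (-((q - p) / 2)) ((q - p) / 2), (volume (seg K ((p + q) / 2 + r, y)) +
        volume (seg K ((p + q) / 2 - r, y)))) ∧
      (∫⁻ r in Icc (-((q - p) / 2)) ((q - p) / 2), (volume (seg K ((p + q) / 2 + r, y)) +
        volume (seg K ((p + q) / 2 - r, y)))) = 2 * ∫⁻ s in fib K y, volume (seg K (s, y)) := by
    intro p q hI hpq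
    constructor
    · rw [fib_St_Icc hI, ← lintegral_const_mul _ (hmeas (St_compact hK))]
      refine lintegral_mono fun r => ?_
      exact St_vol hK hKc (by ring) y
    · have hm1 : Measurable fun r : ℝ => volume (seg K ((p + q) / 2 + r, y)) :=
        (hmeas hK).comp (measurable_const.add measurable_id)
      rw [lintegral_add_left hm1,
        lintegral_shift (φ := fun s => volume (seg K (s, y))),
        lintegral_reflect (φ := fun s => volume (seg K (s, y))), hI, two_mul]
  rcases (fib K y).eq_empty_or_nonempty with he | hne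
  · rw [he, fib_St_empty he]
    refine ⟨by simp, fun _ _ p q hI hpq => ?_⟩
    exact absurd (hI ▸ left_mem_Icc.2 hpq : p ∈ (∅ : Set ℝ)) (notMem_empty p)
  · obtain ⟨p, q, hpq, hp, hq, hI⟩ := fib_eq_Icc hK hKc hne
    obtain ⟨h1, h2⟩ := hcomp p q hI hpq
    refine ⟨?_, fun h hfin p' q' hI' hpq' => ?_⟩
    · rw [h2] at h1
      exact (ENNReal.mul_le_mul_iff_right (by norm_num) (by norm_num)).1 h1
    · obtain ⟨h1', h2'⟩ := hcomp p' q' hI' hpq'
      have h3 : ∀ r, 2 * volume (seg (St K) (r, y)) ≤
          volume (seg K ((p' + q') / 2 + r, y)) + volume (seg K ((p' + q') / 2 - r, y)) :=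
        fun r => St_vol hK hKc (by ring) y
      have h4 : (fun r => 2 * volume (seg (St K) (r, y))) =ᵐ[volume.restrict
          (Icc (-((q' - p') / 2)) ((q' - p') / 2))] fun r =>
          volume (seg K ((p' + q') / 2 + r, y)) + volume (seg K ((p' + q') / 2 - r, y)) := by
        refine ae_eq_of_ae_le_of_lintegral_le (Filter.Eventually.of_forall h3) ?_ ?_ ?_
        · rw [lintegral_const_mul _ (hmeas (St_compact hK)), ← fib_St_Icc hI']
          exact ENNReal.mul_ne_top (by norm_num) hfin
        · have hm1 : Measurable fun r : ℝ => volume (seg K ((p' + q') / 2 + r, y)) :=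
            (hmeas hK).comp (measurable_const.add measurable_id)
          have hm2 : Measurable fun r : ℝ => volume (seg K ((p' + q') / 2 - r, y)) :=
            (hmeas hK).comp (measurable_const.sub measurable_id)
          exact (hm1.add hm2).aemeasurable
        · rw [h2', lintegral_const_mul _ (hmeas (St_compact hK)), ← fib_St_Icc hI']
          gcongr
      have h5 := (ae_restrict_iff' measurableSet_Icc).1 h4
      filter_upwards [h5] with r hr hr'
      exact (hr hr').symm

theorem FF_St_le {K : Set (ℝ × (Fin m → ℝ))} (hK : IsCompact K) (hKc : Convex ℝ K) :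
    FF (St K) ≤ FF K := by
  unfold FF
  rw [lintegral_fib hK.measurableSet (measurable_vol_seg hK),
    lintegral_fib (St_compact hK).measurableSet (measurable_vol_seg (St_compact hK))]
  exact lintegral_mono fun y => (FF_fib hK hKc y).1

lemma FF_ne_top {X : Type*} [NormedAddCommGroup X] [NormedSpace ℝ X]
    [MeasureSpace X] [BorelSpace X] [IsFiniteMeasureOnCompacts (volume : Measure X)] {K : Set X}
    (hK : IsCompact K) : FF K ≠ ∞ := by
  have hL : IsCompact (⋃ t ∈ K, seg K t) := by
    have h1 : (⋃ t ∈ K, seg K t) = (fun r : (X × X) × ℝ => r.1.2 + r.2 • r.1.1) ''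
        ((K ×ˢ K) ×ˢ Icc (0:ℝ) 1) := by
      ext z
      simp only [mem_iUnion, mem_image]
      constructor
      · rintro ⟨t, ht, x, hx, s, h0, h1, h⟩
        exact ⟨((t, x), s), ⟨⟨ht, hx⟩, h0, h1⟩, h⟩
      · rintro ⟨⟨⟨t, x⟩, s⟩, ⟨⟨ht, hx⟩, h0, h1⟩, h⟩
        exact ⟨t, ht, x, hx, s, h0, h1, h⟩
    rw [h1]
    exact ((hK.prod hK).prod isCompact_Icc).image (by fun_prop)
  have h2 : FF K ≤ volume (⋃ t ∈ K, seg K t) * volume K := by
    unfold FF
    rw [← setLIntegral_const]
    refine setLIntegral_mono' hK.measurableSet fun t ht => ?_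
    exact measure_mono (subset_biUnion_of_mem (u := fun t => seg K t) ht)
  exact ne_top_of_le_ne_top (ENNReal.mul_ne_top hL.measure_lt_top.ne hK.measure_lt_top.ne) h2

/-- the case of equality -/
theorem FF_eq_ae {K : Set (ℝ × (Fin m → ℝ))} (hK : IsCompact K) (hKc : Convex ℝ K)
    (h : FF K ≤ FF (St K)) :
    ∀ᵐ y : Fin m → ℝ, ∀ p q, fib K y = Icc p q → p ≤ q →
      ∀ᵐ r : ℝ, r ∈ Icc (-((q - p) / 2)) ((q - p) / 2) →
      ∀ᵐ z : Fin m → ℝ, 2 * volume (fib (seg (St K) (r, y)) z) =
        volume (fib (seg K ((p + q) / 2 + r, y)) z) +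
          volume (fib (seg K ((p + q) / 2 - r, y)) z) := by
  have hSfin : FF (St K) ≠ ∞ := FF_ne_top (St_compact hK)
  have hS := St_compact hK
  unfold FF at h hSfin
  rw [lintegral_fib hK.measurableSet (measurable_vol_seg hK),
    lintegral_fib hS.measurableSet (measurable_vol_seg hS)] at h
  rw [lintegral_fib hS.measurableSet (measurable_vol_seg hS)] at hSfin
  have hae : (fun y => ∫⁻ r in fib (St K) y, volume (seg (St K) (r, y))) =ᵐ[volume]
      fun y => ∫⁻ s in fib K y, volume (seg K (s, y)) :=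
    ae_eq_of_ae_le_of_lintegral_le
      (Filter.Eventually.of_forall fun y => (FF_fib hK hKc y).1) hSfin
      (measurable_lintegral_fib hK.measurableSet (measurable_vol_seg hK)).aemeasurable h
  have hfin := ae_lt_top (measurable_lintegral_fib hS.measurableSet (measurable_vol_seg hS)) hSfin
  filter_upwards [hae, hfin] with y hy hyfin p q hI hpq
  filter_upwards [(FF_fib hK hKc y).2 hy.symm.le hyfin.ne p q hI hpq] with r hr hrI
  have h1 := hr hrI
  rw [volume_seg_fib hS, volume_seg_fib hK, volume_seg_fib hK,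
    ← lintegral_const_mul _ (measurable_fib (seg_compact hS _).measurableSet),
    ← lintegral_add_left (measurable_fib (seg_compact hK _).measurableSet)] at h1
  have h2 : (fun z => 2 * volume (fib (seg (St K) (r, y)) z)) =ᵐ[volume] fun z =>
      volume (fib (seg K ((p + q) / 2 + r, y)) z) +
          volume (fib (seg K ((p + q) / 2 - r, y)) z) := by
    refine ae_eq_of_ae_le_of_lintegral_le (Filter.Eventually.of_forall fun z =>
      St_len hK hKc (by ring) y z) ?_ ?_ h1.le
    · rw [lintegral_const_mul _ (measurable_fib (seg_compact hS _).measurableSet),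
        ← volume_seg_fib hS]
      exact ENNReal.mul_ne_top (by norm_num) (seg_compact hS _).measure_lt_top.ne
    · exact ((measurable_fib (seg_compact hK _).measurableSet).add
        (measurable_fib (seg_compact hK _).measurableSet)).aemeasurable
  exact h2

end Pool.Agent.TH582.Mass
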