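import Pool.Agent.TH582.Mass.B

/-! `F` is minimised by balls among convex bodies of given volume. -/

set_option autoImplicit false
open MeasureTheory Set Module Filter Topology Metric TopologicalSpace
open scoped ENNReal RealInnerProductSpace

namespace Pool.Agent.TH582.Mass

open Pool.Agent.Helper481.RH

section limit

variable {E : Type*} [NormedAddCommGroup E] [InnerProductSpace ℝ E] [FiniteDimensional ℝ E]
  [MeasurableSpace E] [BorelSpace E]

/-- Blaschke selection -/
lemma exists_limit {R : ℝ} {V : ℝ≥0∞} (L : ℕ → NonemptyCompacts E)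
    (hLR : ∀ n, (L n : Set E) ⊆ closedBall 0 R) (hLc : ∀ n, Convex ℝ (L n : Set E))
    (hLV : ∀ n, V ≤ volume (L n : Set E)) :
    ∃ (K : NonemptyCompacts E) (φ : ℕ → ℕ), StrictMono φ ∧ (K : Set E) ⊆ closedBall 0 R ∧
      Convex ℝ (K : Set E) ∧ V ≤ volume (K : Set E) ∧
      (∀ z ∈ interior (K : Set E), ∀ᶠ n in atTop, z ∈ (L (φ n) : Set E)) ∧
      ∀ t : E, ∀ z ∈ interior (seg (K : Set E) t), ∀ᶠ n in atTop, z ∈ seg (L (φ n) : Set E) t := by
  have : ProperSpace E := FiniteDimensional.proper_real E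
  have hcpt : IsCompact {M : NonemptyCompacts E | (M : Set E) ⊆ closedBall (0 : E) R} :=
    NonemptyCompacts.isCompact_subsets_of_isCompact (isCompact_closedBall 0 R)
  obtain ⟨K, hK, φ, hφ, hlim⟩ := hcpt.tendsto_subseq (x := L) hLR
  have hdist : Tendsto (fun n => dist (L (φ n)) K) atTop (𝓝 0) := by
    have := tendsto_iff_dist_tendsto_zero.1 hlim
    exact this
  have hfin : ∀ n, hausdorffEDist (L (φ n) : Set E) K ≠ ⊤ := fun n =>
    hausdorffEDist_ne_top_of_nonempty_of_bounded (L (φ n)).nonempty K.nonempty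
      (L (φ n)).isCompact.isBounded K.isCompact.isBounded
  have happ : ∀ δ : ℝ, 0 < δ → ∀ᶠ n in atTop, (∀ x ∈ (K : Set E), ∃ y ∈ (L (φ n) : Set E),
      dist x y ≤ δ) ∧ (∀ y ∈ (L (φ n) : Set E), ∃ x ∈ (K : Set E), dist x y ≤ δ) := by
    intro δ hδ
    filter_upwards [hdist.eventually_lt_const hδ] with n hn
    rw [NonemptyCompacts.dist_eq] at hn
    constructor
    · intro x hx
      obtain ⟨y, hy, h⟩ := exists_dist_lt_of_hausdorffDist_lt' hx hn (hfin n)
      exact ⟨y, hy, by rw [dist_comm]; exact h.le⟩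
    · intro y hy
      obtain ⟨x, hx, h⟩ := exists_dist_lt_of_hausdorffDist_lt hy hn (hfin n)
      exact ⟨x, hx, by rw [dist_comm]; exact h.le⟩
  have hKcl : IsClosed (K : Set E) := K.isCompact.isClosed
  have hKconv : Convex ℝ (K : Set E) := by
    intro x hx y hy a b ha hb hab
    rw [← hKcl.closure_eq, Metric.mem_closure_iff]
    intro ε hε
    obtain ⟨n, h1, h2⟩ := (happ (ε / 4) (by positivity)).exists
    obtain ⟨x', hx', hxx⟩ := h1 x hx
    obtain ⟨y', hy', hyy⟩ := h1 y hy
    obtain ⟨z, hz, hzz⟩ := h2 _ ((hLc (φ n)) hx' hy' ha hb hab)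
    refine ⟨z, hz, ?_⟩
    have h3 : dist (a • x + b • y) (a • x' + b • y') ≤ ε / 4 + ε / 4 := by
      refine (dist_add_add_le _ _ _ _).trans ?_
      rw [dist_smul₀, dist_smul₀, Real.norm_eq_abs, Real.norm_eq_abs, abs_of_nonneg ha,
        abs_of_nonneg hb]
      have ha1 : a ≤ 1 := by linarith
      have hb1 : b ≤ 1 := by linarith
      have := dist_nonneg (x := x) (y := x')
      have := dist_nonneg (x := y) (y := y')
      nlinarith
    have h4 := dist_triangle (a • x + b • y) (a • x' + b • y') z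
    rw [dist_comm (a • x' + b • y') z] at h4
    linarith
  have hVK : V ≤ volume (K : Set E) := by
    have ht := (tendsto_measure_cthickening_of_isCompact (μ := (volume : Measure E))
      K.isCompact).mono_left (nhdsWithin_le_nhds (s := Ioi 0))
    refine ge_of_tendsto ht ?_
    filter_upwards [self_mem_nhdsWithin] with r hr
    obtain ⟨n, h1, h2⟩ := (happ r hr).exists
    refine (hLV (φ n)).trans (measure_mono fun y hy => ?_)
    obtain ⟨x, hx, hxy⟩ := h2 y hy
    exact mem_cthickening_of_dist_le y x r _ hx (by rw [dist_comm]; exact hxy)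
  refine ⟨K, φ, hφ, hK, hKconv, hVK, ?_, ?_⟩
  · intro z hz
    obtain ⟨r, hr, hrs⟩ := Metric.mem_nhds_iff.1 (mem_interior_iff_mem_nhds.1 hz)
    filter_upwards [happ (r / 8) (by positivity)] with n hn
    exact mem_of_close (L (φ n)).isCompact (hLc (φ n)) (L (φ n)).nonempty (δ' := r / 2)
      (by positivity) (by linarith) hn.1 ((closedBall_subset_ball (by linarith)).trans hrs)
  · intro t z hz
    obtain ⟨r, hr, hrs⟩ := Metric.mem_nhds_iff.1 (mem_interior_iff_mem_nhds.1 hz)
    filter_upwards [happ (r / 8) (by positivity)] with n hn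
    refine mem_of_close (seg_compact (L (φ n)).isCompact _) (seg_convex (hLc (φ n)) _)
      ((L (φ n)).nonempty.mono (subset_seg _ _)) (δ := r / 8) (δ' := r / 2) (by positivity)
      (by linarith) ?_ ((closedBall_subset_ball (by linarith)).trans hrs)
    rintro _ ⟨w, hw, s, hs0, hs1, rfl⟩
    obtain ⟨w', hw', hd⟩ := hn.1 w hw
    refine ⟨w' + s • t, ⟨w', hw', s, hs0, hs1, rfl⟩, ?_⟩
    rwa [dist_add_right]

/-- lower semicontinuity of `F` -/
lemma FF_le_of_limit {f : ℝ≥0∞} {K : Set E} (hK : IsCompact K) (hKc : Convex ℝ K) {L : ℕ → Set E}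
    (hL : ∀ n, IsCompact (L n)) (hLf : ∀ n, FF (L n) ≤ f)
    (h1 : ∀ z ∈ interior K, ∀ᶠ n in atTop, z ∈ L n)
    (h2 : ∀ t : E, ∀ z ∈ interior (seg K t), ∀ᶠ n in atTop, z ∈ seg (L n) t) : FF K ≤ f := by
  have : ProperSpace E := FiniteDimensional.proper_real E
  have hin : ∀ t, volume (seg K t) ≤ liminf (fun n => volume (seg (L n) t)) atTop := by
    intro t
    have hF := lintegral_le_liminf (seg_convex hKc t)
      (fun n => (seg_compact (hL n) t).measurableSet) (h2 t)
      (f := fun _ => 1) measurable_const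
    simpa only [setLIntegral_one] using hF
  have h3 : FF K = ∫⁻ t in interior K, volume (seg K t) := by
    refine le_antisymm ?_ (lintegral_mono_set interior_subset)
    have h2 : K ⊆ interior K ∪ frontier K := by
      intro x hx
      by_cases hxi : x ∈ interior K
      · exact Or.inl hxi
      · exact Or.inr ⟨subset_closure hx, hxi⟩
    calc ∫⁻ x in K, volume (seg K x) ≤ ∫⁻ x in interior K ∪ frontier K, volume (seg K x) :=
          lintegral_mono_set h2
      _ ≤ (∫⁻ x in interior K, volume (seg K x)) + (∫⁻ x in frontier K, volume (seg K x)) :=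
          lintegral_union_le _ _ _
      _ = ∫⁻ x in interior K, volume (seg K x) := by
        rw [setLIntegral_measure_zero _ _ (hKc.addHaar_frontier volume), add_zero]
  rw [h3, ← lintegral_indicator isOpen_interior.measurableSet]
  calc ∫⁻ x, (interior K).indicator (fun t => volume (seg K t)) x
      ≤ ∫⁻ x, liminf (fun n => (L n).indicator (fun t => volume (seg (L n) t)) x) atTop := by
        refine lintegral_mono fun x => ?_
        by_cases hx : x ∈ interior K
        · rw [indicator_of_mem hx]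
          refine (hin x).trans (liminf_le_liminf ?_)
          filter_upwards [h1 x hx] with n hn
          rw [indicator_of_mem hn]
        · rw [indicator_of_notMem hx]; exact zero_le
    _ ≤ liminf (fun n => ∫⁻ x, (L n).indicator (fun t => volume (seg (L n) t)) x) atTop :=
        lintegral_liminf_le fun n => (measurable_vol_seg (hL n)).indicator (hL n).measurableSet
    _ = liminf (fun n => FF (L n)) atTop := by
        congr 1
        ext n
        rw [lintegral_indicator (hL n).measurableSet]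
        rfl
    _ ≤ f := by
        refine liminf_le_of_le (by isBoundedDefault) ?_
        intro c hc
        obtain ⟨n, hn⟩ := hc.exists
        exact hn.trans (hLf n)

/-- the class in which the second moment is minimised -/
def ClsF (E : Type*) [NormedAddCommGroup E] [InnerProductSpace ℝ E] [FiniteDimensional ℝ E]
    [MeasurableSpace E] [BorelSpace E] (R : ℝ) (V f : ℝ≥0∞) : Set (NonemptyCompacts E) :=
  {L | (L : Set E) ⊆ closedBall 0 R ∧ Convex ℝ (L : Set E) ∧ V ≤ volume (L : Set E) ∧
    FF (L : Set E) ≤ f}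

theorem exists_minF {R : ℝ} {V f : ℝ≥0∞} (hne : (ClsF E R V f).Nonempty) :
    ∃ L ∈ ClsF E R V f, ∀ M ∈ ClsF E R V f, mom (L : Set E) ≤ mom (M : Set E) := by
  set S : Set ℝ≥0∞ := (fun M : NonemptyCompacts E => mom (M : Set E)) '' ClsF E R V f with hS
  have hSne : S.Nonempty := hne.image _
  obtain ⟨u, -, hu, huS⟩ := exists_seq_tendsto_sInf hSne (OrderBot.bddBelow S)
  choose L hL hLu using huS
  obtain ⟨K, φ, hφ, hK, hKconv, hVK, hin, hseg⟩ := exists_limit L (fun n => (hL n).1)
    (fun n => (hL n).2.1) (fun n => (hL n).2.2.1)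
  have hKF : FF (K : Set E) ≤ f := FF_le_of_limit K.isCompact hKconv
    (L := fun n => (L (φ n) : Set E)) (fun n => (L (φ n)).isCompact)
    (fun n => (hL (φ n)).2.2.2) hin hseg
  refine ⟨K, ⟨hK, hKconv, hVK, hKF⟩, fun M hM => ?_⟩
  have hF := lintegral_le_liminf hKconv
    (fun n => (L (φ n)).isCompact.measurableSet) hin
    (f := fun x => ENNReal.ofReal (‖x‖ ^ 2)) (by fun_prop)
  have hlimM : Tendsto (fun n => mom (L (φ n) : Set E)) atTop (𝓝 (sInf S)) := by
    have h1 : Tendsto (fun n => u (φ n)) atTop (𝓝 (sInf S)) := hu.comp hφ.tendsto_atTop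
    refine h1.congr fun n => ?_
    exact (hLu (φ n)).symm
  have h2 : mom (K : Set E) ≤ sInf S := by
    refine hF.trans (le_of_eq ?_)
    exact hlimM.liminf_eq
  exact h2.trans (sInf_le ⟨M, hM, rfl⟩)

end limit

variable {m : ℕ}

lemma FF_coord (b : OrthonormalBasis (Fin (m + 1)) ℝ (EuclideanSpace ℝ (Fin (m + 1))))
    (K : Set (EuclideanSpace ℝ (Fin (m + 1)))) : FF (coord b '' K) = FF K := by
  unfold FF
  rw [lintegral_coord_image]
  refine lintegral_congr fun x => ?_
  rw [← coord_image_seg, volume_coord_image]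

lemma mom_coord (b : OrthonormalBasis (Fin (m + 1)) ℝ (EuclideanSpace ℝ (Fin (m + 1))))
    (K : Set (EuclideanSpace ℝ (Fin (m + 1)))) : mom K = ∫⁻ p in coord b '' K, wt p := by
  rw [lintegral_coord_image]
  simp only [wt_coord]
  rfl

/-- a minimiser is symmetric with respect to all hyperplanes through the origin -/
lemma min_symmF {R : ℝ} {V f : ℝ≥0∞} (hV : V ≠ 0)
    {L : NonemptyCompacts (EuclideanSpace ℝ (Fin (m + 1)))}
    (hL : L ∈ ClsF (EuclideanSpace ℝ (Fin (m + 1))) R V f)
    (hmin : ∀ M ∈ ClsF (EuclideanSpace ℝ (Fin (m + 1))) R V f,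
      mom (L : Set (EuclideanSpace ℝ (Fin (m + 1)))) ≤ mom (M : Set (EuclideanSpace ℝ (Fin (m + 1)))))
    {v : EuclideanSpace ℝ (Fin (m + 1))} (hv : ‖v‖ = 1) :
    ∀ x ∈ L, x - (2 * ⟪v, x⟫) • v ∈ L := by
  obtain ⟨b, hb⟩ := exists_basis hv
  obtain ⟨hLR, hLc, hLV, hLA⟩ := hL
  set K : Set (ℝ × (Fin m → ℝ)) := coord b '' (L : Set (EuclideanSpace ℝ (Fin (m + 1)))) with hKdef
  have hK : IsCompact K := L.isCompact.image (coord b).continuous
  have hKc : Convex ℝ K := hLc.linear_image (coord b).toLinearEquiv.toLinearMap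
  have hKne : K.Nonempty := L.nonempty.image _
  let M : NonemptyCompacts (EuclideanSpace ℝ (Fin (m + 1))) :=
    ⟨⟨(coord b).symm '' St K, (St_compact hK).image (coord b).symm.continuous⟩,
      (St_nonempty hKne).image _⟩
  have hMdef : (M : Set (EuclideanSpace ℝ (Fin (m + 1)))) = (coord b).symm '' St K := rfl
  have hcM : coord b '' (M : Set (EuclideanSpace ℝ (Fin (m + 1)))) = St K := by
    rw [hMdef, image_image]
    simp
  have hM : M ∈ ClsF (EuclideanSpace ℝ (Fin (m + 1))) R V f := by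
    refine ⟨?_, ?_, ?_, ?_⟩
    · rw [hMdef]
      rintro _ ⟨p, ⟨a, c, ha, hc, hac⟩, rfl⟩
      obtain ⟨x, hx, hxe⟩ := ha
      obtain ⟨y, hy, hye⟩ := hc
      have h1 := hLR hx
      have h2 := hLR hy
      rw [mem_closedBall_zero_iff] at h1 h2 ⊢
      have hR : 0 ≤ R := (norm_nonneg _).trans h1
      have e1 := norm_sq_coord b x
      have e2 := norm_sq_coord b y
      have e3 := norm_sq_coord b ((coord b).symm p)
      rw [hxe] at e1
      rw [hye] at e2
      rw [(coord b).apply_symm_apply] at e3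
      simp only at e1 e2
      rw [← sq_le_sq₀ (norm_nonneg _) hR, e3, hac]
      have h3 : ‖x‖ ^ 2 ≤ R ^ 2 := by gcongr
      have h4 : ‖y‖ ^ 2 ≤ R ^ 2 := by gcongr
      nlinarith [sq_nonneg (a + c)]
    · rw [hMdef]
      exact (St_convex hKc).linear_image (coord b).symm.toLinearEquiv.toLinearMap
    · rw [← volume_coord_image b, hcM, volume_St hK hKc, hKdef, volume_coord_image]
      exact hLV
    · rw [← FF_coord b, hcM]
      refine (FF_St_le hK hKc).trans ?_
      rw [hKdef, FF_coord]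
      exact hLA
  have h1 := hmin M hM
  rw [mom_coord b, mom_coord b (M : Set _), hcM] at h1
  have hint : (interior K).Nonempty := by
    apply interior_coord_nonempty
    apply interior_nonempty_of_volume hLc
    intro h0
    rw [h0] at hLV
    exact hV (le_antisymm hLV zero_le)
  have hfin : ∫⁻ p in K, wt p ≠ ∞ := by
    have hcont : Continuous (fun p : ℝ × (Fin m → ℝ) => p.1 ^ 2 + ∑ i, p.2 i ^ 2) := by fun_prop
    have h3 : IntegrableOn (fun p : ℝ × (Fin m → ℝ) => p.1 ^ 2 + ∑ i, p.2 i ^ 2) K volume :=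
      hcont.continuousOn.integrableOn_compact hK
    have h4 := h3.lintegral_lt_top
    exact h4.ne
  have hsym := moment_eq hK hKc hint hfin h1
  intro x hx
  obtain ⟨y, hy, hye⟩ := hsym (coord b x) ⟨x, hx, rfl⟩
  have : y = x - (2 * ⟪v, x⟫) • v := by
    apply (coord b).injective
    rw [hye, map_sub, map_smul, ← hb, coord_basis, ← coord_fst]
    refine Prod.ext ?_ ?_
    · simp; ring
    · simp
  rw [← this]; exact hy

/-- `F` is minimal for balls -/
theorem FF_ball_le {K : Set (EuclideanSpace ℝ (Fin (m + 1)))} (hK : IsCompact K)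
    (hKc : Convex ℝ K) (hv : volume K ≠ 0) :
    ∃ ρ, 0 ≤ ρ ∧ volume K ≤ volume (closedBall (0 : EuclideanSpace ℝ (Fin (m + 1))) ρ) ∧
      FF (closedBall (0 : EuclideanSpace ℝ (Fin (m + 1))) ρ) ≤ FF K := by
  have hne : K.Nonempty := by
    by_contra h
    rw [not_nonempty_iff_eq_empty] at h
    exact hv (by rw [h]; simp)
  obtain ⟨R, hR⟩ := hK.isBounded.subset_closedBall 0
  have hcls : (ClsF (EuclideanSpace ℝ (Fin (m + 1))) R (volume K) (FF K)).Nonempty :=
    ⟨⟨⟨K, hK⟩, hne⟩, hR, hKc, le_rfl, le_rfl⟩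
  obtain ⟨L, hL, hmin⟩ := exists_minF hcls
  have hsym := fun v hv' => min_symmF hv hL hmin (v := v) hv'
  obtain ⟨hLR, hLc, hLV, hLA⟩ := hL
  obtain ⟨ρ, hρ, hball⟩ := eq_ball L.isCompact hLc L.nonempty hsym
  rw [hball] at hLV hLA
  exact ⟨ρ, hρ, hLV, hLA⟩

end Pool.Agent.TH582.Mass
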