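import Pool.Agent.TH582.Mass.B

/-! The case of equality `F(K) = F(St K)`: the midpoints of the chords are coplanar. -/

set_option autoImplicit false
open MeasureTheory Set Module Filter Topology Metric
open scoped ENNReal RealInnerProductSpace

namespace Pool.Agent.TH582.Mass

open Pool.Agent.Helper481.RH

variable {m : ℕ} {K : Set (ℝ × (Fin m → ℝ))}

/-- upper end of the chord over `y` -/
noncomputable def top (K : Set (ℝ × (Fin m → ℝ))) (y : Fin m → ℝ) : ℝ := sSup (fib K y)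

/-- lower end of the chord over `y` -/
noncomputable def bot (K : Set (ℝ × (Fin m → ℝ))) (y : Fin m → ℝ) : ℝ := sInf (fib K y)

/-- midpoint of the chord -/
noncomputable def cc (K : Set (ℝ × (Fin m → ℝ))) (y : Fin m → ℝ) : ℝ := (bot K y + top K y) / 2

/-- half-length of the chord -/
noncomputable def ww (K : Set (ℝ × (Fin m → ℝ))) (y : Fin m → ℝ) : ℝ := (top K y - bot K y) / 2

lemma fib_nonempty_iff {y : Fin m → ℝ} : (fib K y).Nonempty ↔ y ∈ proj K := by
  constructor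
  · rintro ⟨s, hs⟩
    exact ⟨(s, y), hs, rfl⟩
  · rintro ⟨⟨s, y'⟩, hs, rfl⟩
    exact ⟨s, hs⟩

lemma fib_Icc (hK : IsCompact K) (hKc : Convex ℝ K) {y : Fin m → ℝ} (hy : y ∈ proj K) :
    fib K y = Icc (bot K y) (top K y) ∧ bot K y ≤ top K y := by
  obtain ⟨p, q, hpq, hp, hq, hI⟩ := fib_eq_Icc hK hKc (fib_nonempty_iff.2 hy)
  have h1 : bot K y = p := by rw [bot, hI, csInf_Icc hpq]
  have h2 : top K y = q := by rw [top, hI, csSup_Icc hpq]
  rw [h1, h2]
  exact ⟨hI, hpq⟩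

lemma top_mem (hK : IsCompact K) (hKc : Convex ℝ K) {y : Fin m → ℝ} (hy : y ∈ proj K) :
    (top K y, y) ∈ K := by
  obtain ⟨h1, h2⟩ := fib_Icc hK hKc hy
  have : top K y ∈ fib K y := by rw [h1]; exact right_mem_Icc.2 h2
  exact this

lemma bot_mem (hK : IsCompact K) (hKc : Convex ℝ K) {y : Fin m → ℝ} (hy : y ∈ proj K) :
    (bot K y, y) ∈ K := by
  obtain ⟨h1, h2⟩ := fib_Icc hK hKc hy
  have : bot K y ∈ fib K y := by rw [h1]; exact left_mem_Icc.2 h2
  exact this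

lemma le_top (hK : IsCompact K) (hKc : Convex ℝ K) {y : Fin m → ℝ} {s : ℝ} (h : (s, y) ∈ K) :
    s ≤ top K y ∧ bot K y ≤ s := by
  obtain ⟨h1, h2⟩ := fib_Icc hK hKc (y := y) ⟨_, h, rfl⟩
  have : s ∈ fib K y := h
  rw [h1] at this
  exact ⟨this.2, this.1⟩

lemma top_concave (hK : IsCompact K) (hKc : Convex ℝ K) : ConcaveOn ℝ (proj K) (top K) := by
  refine ⟨proj_convex hKc, fun x hx y hy a b ha hb hab => ?_⟩
  have := hKc (top_mem hK hKc hx) (top_mem hK hKc hy) ha hb hab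
  exact (le_top hK hKc this).1

lemma bot_convex (hK : IsCompact K) (hKc : Convex ℝ K) : ConvexOn ℝ (proj K) (bot K) := by
  refine ⟨proj_convex hKc, fun x hx y hy a b ha hb hab => ?_⟩
  have := hKc (bot_mem hK hKc hx) (bot_mem hK hKc hy) ha hb hab
  exact (le_top hK hKc this).2

lemma ww_concave (hK : IsCompact K) (hKc : Convex ℝ K) : ConcaveOn ℝ (proj K) (ww K) := by
  refine ⟨proj_convex hKc, fun x hx y hy a b ha hb hab => ?_⟩
  have h1 := (top_concave hK hKc).2 hx hy ha hb hab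
  have h2 := (bot_convex hK hKc).2 hx hy ha hb hab
  simp only [smul_eq_mul] at h1 h2 ⊢
  unfold ww
  linarith

lemma top_cont (hK : IsCompact K) (hKc : Convex ℝ K) : ContinuousOn (top K) (interior (proj K)) :=
  (top_concave hK hKc).continuousOn_interior

lemma bot_cont (hK : IsCompact K) (hKc : Convex ℝ K) : ContinuousOn (bot K) (interior (proj K)) :=
  (bot_convex hK hKc).continuousOn_interior

lemma cc_cont (hK : IsCompact K) (hKc : Convex ℝ K) : ContinuousOn (cc K) (interior (proj K)) :=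
  ((bot_cont hK hKc).add (top_cont hK hKc)).div_const 2

lemma ww_cont (hK : IsCompact K) (hKc : Convex ℝ K) : ContinuousOn (ww K) (interior (proj K)) :=
  ((top_cont hK hKc).sub (bot_cont hK hKc)).div_const 2

/-- the equality at a point -/
def Good (K : Set (ℝ × (Fin m → ℝ))) (y : Fin m → ℝ) (r : ℝ) (z : Fin m → ℝ) : Prop :=
  2 * volume (fib (seg (St K) (r, y)) z) =
    volume (fib (seg K (cc K y + r, y)) z) + volume (fib (seg K (cc K y - r, y)) z)

lemma good_bound (hK : IsCompact K) (hKc : Convex ℝ K) {y z : Fin m → ℝ} {r : ℝ}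
    (hG : Good K y r z) {W : ℝ} (hW : ∀ x ∈ fib (seg (St K) (r, y)) z, x ≤ W) {x x' : ℝ}
    (hx : x ∈ fib (seg K (cc K y + r, y)) z) (hx' : x' ∈ fib (seg K (cc K y - r, y)) z) :
    x - x' ≤ 2 * W := by
  have hS := St_compact hK
  have hSc := St_convex hKc
  have hne : (fib (seg (St K) (r, y)) z).Nonempty := by
    obtain ⟨⟨p, y'⟩, hp, s, h0, h1, he⟩ := hx
    refine ⟨0 + s * r, ⟨(0, y'), ⟨p, p, hp, hp, by simp⟩, s, h0, h1, ?_⟩⟩
    have h2 : y' + s • y = z := congrArg Prod.snd he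
    rw [← h2]
    rfl
  obtain ⟨lo, hi, hlh, hlo, hhi, hI⟩ := fib_eq_Icc (seg_compact hS (r, y)) (seg_convex hSc (r, y)) hne
  obtain ⟨a1, a2, ha, -, -, hIa⟩ := fib_eq_Icc (seg_compact hK (cc K y + r, y))
    (seg_convex hKc (cc K y + r, y)) ⟨x, hx⟩
  obtain ⟨b1, b2, hb, -, -, hIb⟩ := fib_eq_Icc (seg_compact hK (cc K y - r, y))
    (seg_convex hKc (cc K y - r, y)) ⟨x', hx'⟩
  rw [Good, hI, hIa, hIb, Real.volume_Icc, Real.volume_Icc, Real.volume_Icc,
    show (2 : ℝ≥0∞) = ENNReal.ofReal 2 by simp, ← ENNReal.ofReal_mul (by norm_num),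
    ← ENNReal.ofReal_add (by linarith) (by linarith),
    ENNReal.ofReal_eq_ofReal_iff (by linarith) (by linarith)] at hG
  have hhiW : hi ≤ W := hW hi (by rw [hI]; exact right_mem_Icc.2 hlh)
  rw [hIa] at hx
  rw [hIb] at hx'
  obtain ⟨⟨c2, y2⟩, ⟨p2, q2, hp2, hq2, hc2⟩, s2, hs20, hs21, e2⟩ := hlo
  simp only at hc2 hp2 hq2
  have e2a : c2 + s2 * r = lo := congrArg Prod.fst e2
  have e2b : y2 + s2 • y = z := congrArg Prod.snd e2
  have m2 : p2 + s2 * (cc K y + r) ∈ fib (seg K (cc K y + r, y)) z :=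
    ⟨(p2, y2), hp2, s2, hs20, hs21, by rw [← e2b]; rfl⟩
  have m4 : q2 + s2 * (cc K y - r) ∈ fib (seg K (cc K y - r, y)) z :=
    ⟨(q2, y2), hq2, s2, hs20, hs21, by rw [← e2b]; rfl⟩
  rw [hIa] at m2
  rw [hIb] at m4
  have h1 := m2.1
  have h2 := m4.2
  have h3 : 2 * lo = (p2 + s2 * (cc K y + r)) - (q2 + s2 * (cc K y - r)) := by
    rw [← e2a, hc2]; ring
  linarith [hx.2, hx'.1]

lemma St_fib_le (hK : IsCompact K) (hKc : Convex ℝ K) {y z : Fin m → ℝ} {r W : ℝ}
    (hW : ∀ s : ℝ, 0 ≤ s → s ≤ 1 → z - s • y ∈ proj K → ww K (z - s • y) + s * r ≤ W) :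
    ∀ x ∈ fib (seg (St K) (r, y)) z, x ≤ W := by
  rintro x ⟨⟨c, y'⟩, ⟨a, b, ha, hb, hab⟩, s, h0, h1, he⟩
  simp only at ha hb hab
  have e1 : c + s * r = x := congrArg Prod.fst he
  have e2 : y' + s • y = z := congrArg Prod.snd he
  have e3 : z - s • y = y' := by rw [← e2]; abel
  have h2 := hW s h0 h1 (by rw [e3]; exact ⟨_, ha, rfl⟩)
  rw [e3] at h2
  have h3 := (le_top hK hKc ha).1
  have h4 := (le_top hK hKc hb).2
  have h5 : c ≤ ww K y' := by rw [hab, ww]; linarith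
  linarith

/-- first inequality -/
lemma good_one (hK : IsCompact K) (hKc : Convex ℝ K) {y z : Fin m → ℝ} {r : ℝ}
    (hG : Good K y r z) (hz : z ∈ proj K) (hzy : z - y ∈ proj K)
    (hW : ∀ s : ℝ, 0 ≤ s → s ≤ 1 → z - s • y ∈ proj K →
      ww K (z - s • y) + s * r ≤ ww K (z - y) + r) :
    top K z ≤ top K (z - y) + cc K y + r ∧ bot K (z - y) + cc K y - r ≤ bot K z := by
  have hb := fun {x x' : ℝ} hx hx' => good_bound hK hKc hG (St_fib_le hK hKc hW) (x := x) (x' := x')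
    hx hx'
  have t0 : top K z ∈ fib (seg K (cc K y + r, y)) z :=
    ⟨(top K z, z), top_mem hK hKc hz, 0, le_rfl, zero_le_one, by simp⟩
  have t1 : top K (z - y) + (cc K y + r) ∈ fib (seg K (cc K y + r, y)) z :=
    ⟨(top K (z - y), z - y), top_mem hK hKc hzy, 1, zero_le_one, le_rfl, by simp⟩
  have b0 : bot K z ∈ fib (seg K (cc K y - r, y)) z :=
    ⟨(bot K z, z), bot_mem hK hKc hz, 0, le_rfl, zero_le_one, by simp⟩
  have b1 : bot K (z - y) + (cc K y - r) ∈ fib (seg K (cc K y - r, y)) z :=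
    ⟨(bot K (z - y), z - y), bot_mem hK hKc hzy, 1, zero_le_one, le_rfl, by simp⟩
  have h1 := hb t0 b1
  have h2 := hb t1 b0
  have h3 : ww K (z - y) = (top K (z - y) - bot K (z - y)) / 2 := rfl
  constructor <;> linarith

/-- second inequality -/
lemma good_zero (hK : IsCompact K) (hKc : Convex ℝ K) {y z : Fin m → ℝ} {r : ℝ}
    (hG : Good K y r z) (hz : z ∈ proj K) (hzy : z - y ∈ proj K)
    (hW : ∀ s : ℝ, 0 ≤ s → s ≤ 1 → z - s • y ∈ proj K → ww K (z - s • y) + s * r ≤ ww K z) :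
    top K (z - y) + cc K y + r ≤ top K z ∧ bot K z ≤ bot K (z - y) + cc K y - r := by
  have hb := fun {x x' : ℝ} hx hx' => good_bound hK hKc hG (St_fib_le hK hKc hW) (x := x) (x' := x')
    hx hx'
  have t0 : top K z ∈ fib (seg K (cc K y + r, y)) z :=
    ⟨(top K z, z), top_mem hK hKc hz, 0, le_rfl, zero_le_one, by simp⟩
  have t1 : top K (z - y) + (cc K y + r) ∈ fib (seg K (cc K y + r, y)) z :=
    ⟨(top K (z - y), z - y), top_mem hK hKc hzy, 1, zero_le_one, le_rfl, by simp⟩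
  have b0 : bot K z ∈ fib (seg K (cc K y - r, y)) z :=
    ⟨(bot K z, z), bot_mem hK hKc hz, 0, le_rfl, zero_le_one, by simp⟩
  have b1 : bot K (z - y) + (cc K y - r) ∈ fib (seg K (cc K y - r, y)) z :=
    ⟨(bot K (z - y), z - y), bot_mem hK hKc hzy, 1, zero_le_one, le_rfl, by simp⟩
  have h1 := hb t0 b1
  have h2 := hb t1 b0
  have h3 : ww K z = (top K z - bot K z) / 2 := rfl
  constructor <;> linarith

/-- concavity: the first maximum is attained at `s = 1` -/
lemma max_one (hK : IsCompact K) (hKc : Convex ℝ K) {y z : Fin m → ℝ} {r : ℝ}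
    (h2 : z - (2:ℝ) • y ∈ proj K) (hr : ww K (z - y) - ww K (z - (2:ℝ) • y) ≤ r) :
    ∀ s : ℝ, 0 ≤ s → s ≤ 1 → z - s • y ∈ proj K →
      ww K (z - s • y) + s * r ≤ ww K (z - y) + r := by
  intro s h0 h1 hs
  have h3 : (0:ℝ) < 2 - s := by linarith
  have h4 := (ww_concave hK hKc).2 hs h2 (show 0 ≤ 1 / (2 - s) by positivity)
    (show 0 ≤ (1 - s) / (2 - s) from div_nonneg (by linarith) h3.le)
    (by field_simp; ring)
  have h5 : (1 / (2 - s)) • (z - s • y) + ((1 - s) / (2 - s)) • (z - (2:ℝ) • y) = z - y := by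
    have e1 : (1 / (2 - s)) • (z - s • y) + ((1 - s) / (2 - s)) • (z - (2:ℝ) • y) =
        ((1 / (2 - s)) + ((1 - s) / (2 - s))) • z -
          ((1 / (2 - s)) * s + ((1 - s) / (2 - s)) * 2) • y := by module
    rw [e1]
    have e2 : (1 / (2 - s)) + ((1 - s) / (2 - s)) = 1 := by field_simp; ring
    have e3 : (1 / (2 - s)) * s + ((1 - s) / (2 - s)) * 2 = 1 := by field_simp; ring
    rw [e2, e3, one_smul, one_smul]
  rw [h5] at h4
  simp only [smul_eq_mul] at h4
  have h6 : ww K (z - s • y) + (1 - s) * ww K (z - (2:ℝ) • y) ≤ (2 - s) * ww K (z - y) := by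
    have e4 : (1 / (2 - s)) * ww K (z - s • y) + ((1 - s) / (2 - s)) * ww K (z - (2:ℝ) • y) =
        (ww K (z - s • y) + (1 - s) * ww K (z - (2:ℝ) • y)) / (2 - s) := by ring
    rw [e4, div_le_iff₀ h3] at h4
    linarith
  nlinarith

/-- concavity: the maximum is attained at `s = 0` -/
lemma max_zero (hK : IsCompact K) (hKc : Convex ℝ K) {y z : Fin m → ℝ} {r : ℝ}
    (h2 : z + y ∈ proj K) (hr : r ≤ ww K (z + y) - ww K z) :
    ∀ s : ℝ, 0 ≤ s → s ≤ 1 → z - s • y ∈ proj K → ww K (z - s • y) + s * r ≤ ww K z := by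
  intro s h0 h1 hs
  have h3 : (0:ℝ) < 1 + s := by linarith
  have h4 := (ww_concave hK hKc).2 hs h2 (show 0 ≤ 1 / (1 + s) by positivity)
    (show 0 ≤ s / (1 + s) by positivity) (by field_simp)
  have h5 : (1 / (1 + s)) • (z - s • y) + (s / (1 + s)) • (z + y) = z := by
    have e1 : (1 / (1 + s)) • (z - s • y) + (s / (1 + s)) • (z + y) =
        ((1 / (1 + s)) + (s / (1 + s))) • z + (-(1 / (1 + s)) * s + (s / (1 + s))) • y := by module
    rw [e1]
    have e2 : (1 / (1 + s)) + (s / (1 + s)) = 1 := by field_simp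
    have e3 : -(1 / (1 + s)) * s + (s / (1 + s)) = 0 := by ring
    rw [e2, e3, one_smul, zero_smul, add_zero]
  rw [h5] at h4
  simp only [smul_eq_mul] at h4
  have h6 : ww K (z - s • y) + s * ww K (z + y) ≤ (1 + s) * ww K z := by
    have e4 : (1 / (1 + s)) * ww K (z - s • y) + (s / (1 + s)) * ww K (z + y) =
        (ww K (z - s • y) + s * ww K (z + y)) / (1 + s) := by ring
    rw [e4, div_le_iff₀ h3] at h4
    linarith
  nlinarith

end Pool.Agent.TH582.Mass
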