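import Pool.Agent.TH582.Mass.D

/-! Midpoints: from the almost everywhere equality to a pointwise inequality. -/

set_option autoImplicit false
open MeasureTheory Set Module Filter Topology Metric
open scoped ENNReal RealInnerProductSpace

namespace Pool.Agent.TH582.Mass

open Pool.Agent.Helper481.RH

variable {m : ℕ} {K : Set (ℝ × (Fin m → ℝ))}

lemma freq_of_ae {X : Type*} [TopologicalSpace X] [MeasureSpace X]
    [(volume : Measure X).IsOpenPosMeasure] {p : X → Prop} (h : ∀ᵐ x : X, p x) (x0 : X) :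
    ∃ᶠ x in 𝓝 x0, p x :=
  mem_closure_iff_frequently.1 (Measure.dense_of_ae h x0)

lemma freq_good (hK : IsCompact K) (hKc : Convex ℝ K) (h : FF K ≤ FF (St K))
    {y0 z0 : Fin m → ℝ} {r0 : ℝ} (hy : y0 ∈ interior (proj K)) (hr : |r0| < ww K y0) :
    ∃ᶠ q : (Fin m → ℝ) × ℝ × (Fin m → ℝ) in 𝓝 (y0, r0, z0), Good K q.1 q.2.1 q.2.2 := by
  have h1 := freq_of_ae (FF_eq_ae hK hKc h) y0
  rw [frequently_iff]
  intro S hS
  obtain ⟨U, hU, W, hW, hUW⟩ := mem_nhds_prod_iff.1 hS
  obtain ⟨I, hI, V, hV, hIV⟩ := mem_nhds_prod_iff.1 hW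
  have hint : interior (proj K) ∈ 𝓝 y0 := isOpen_interior.mem_nhds hy
  have hwy : ∀ᶠ y in 𝓝 y0, |r0| < ww K y :=
    ((ww_cont hK hKc).continuousAt hint).eventually_const_lt hr
  obtain ⟨y, hyD, hyU, hyP, hyr⟩ := (h1.and_eventually
    (((show ∀ᶠ y in 𝓝 y0, y ∈ U from hU)).and
      ((show ∀ᶠ y in 𝓝 y0, y ∈ interior (proj K) from hint).and hwy))).exists
  obtain ⟨hfib, hle⟩ := fib_Icc hK hKc (interior_subset hyP)
  have h2 := freq_of_ae (hyD _ _ hfib hle) r0
  have hrI : ∀ᶠ r in 𝓝 r0, |r| < ww K y :=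
    (continuous_abs.continuousAt).eventually_lt_const hyr
  obtain ⟨r, hrD, hrI', hrw⟩ := (h2.and_eventually
    ((show ∀ᶠ r in 𝓝 r0, r ∈ I from hI).and hrI)).exists
  have h3 := hrD (by
    rw [abs_lt] at hrw
    unfold ww at hrw
    exact ⟨hrw.1.le, hrw.2.le⟩)
  obtain ⟨z, hzD, hzV⟩ := ((freq_of_ae h3 z0).and_eventually
    (show ∀ᶠ z in 𝓝 z0, z ∈ V from hV)).exists
  exact ⟨(y, r, z), hUW ⟨hyU, hIV ⟨hrI', hzV⟩⟩, hzD⟩

/-- first pointwise inequality -/
lemma ineq_one (hK : IsCompact K) (hKc : Convex ℝ K) (h : FF K ≤ FF (St K))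
    {y z : Fin m → ℝ} (hy : y ∈ interior (proj K)) (hz : z ∈ interior (proj K))
    (hzy : z - y ∈ interior (proj K)) (hz2 : z - (2:ℝ) • y ∈ interior (proj K))
    (hr : |ww K (z - y) - ww K (z - (2:ℝ) • y)| < ww K y) :
    top K z ≤ top K (z - y) + cc K y + (ww K (z - y) - ww K (z - (2:ℝ) • y)) ∧
    bot K (z - y) + cc K y - (ww K (z - y) - ww K (z - (2:ℝ) • y)) ≤ bot K z := by
  set r1 := ww K (z - y) - ww K (z - (2:ℝ) • y) with hr1
  have hnhd : ∀ {x : Fin m → ℝ}, x ∈ interior (proj K) → interior (proj K) ∈ 𝓝 x :=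
    fun hx => isOpen_interior.mem_nhds hx
  have key : ∀ r : ℝ, r1 < r → r < ww K y →
      top K z ≤ top K (z - y) + cc K y + r ∧ bot K (z - y) + cc K y - r ≤ bot K z := by
    intro r hr1r hrw
    have hf := freq_good hK hKc h (z0 := z) hy (r0 := r) (by
      rw [abs_lt] at hr ⊢
      exact ⟨by linarith, hrw⟩)
    -- continuity statements
    have c1 : Tendsto (fun q : (Fin m → ℝ) × ℝ × (Fin m → ℝ) => q.1) (𝓝 (y, r, z)) (𝓝 y) :=
      continuous_fst.continuousAt
    have c2 : Tendsto (fun q : (Fin m → ℝ) × ℝ × (Fin m → ℝ) => q.2.1) (𝓝 (y, r, z)) (𝓝 r) :=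
      (continuous_fst.comp continuous_snd).continuousAt
    have c3 : Tendsto (fun q : (Fin m → ℝ) × ℝ × (Fin m → ℝ) => q.2.2) (𝓝 (y, r, z)) (𝓝 z) :=
      (continuous_snd.comp continuous_snd).continuousAt
    have c4 : Tendsto (fun q : (Fin m → ℝ) × ℝ × (Fin m → ℝ) => q.2.2 - q.1) (𝓝 (y, r, z))
        (𝓝 (z - y)) := c3.sub c1
    have c5 : Tendsto (fun q : (Fin m → ℝ) × ℝ × (Fin m → ℝ) => q.2.2 - (2:ℝ) • q.1)
        (𝓝 (y, r, z)) (𝓝 (z - (2:ℝ) • y)) := c3.sub (c1.const_smul _)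
    have t3 := ((top_cont hK hKc).continuousAt (hnhd hz)).tendsto.comp c3
    have b3 := ((bot_cont hK hKc).continuousAt (hnhd hz)).tendsto.comp c3
    have t4 := ((top_cont hK hKc).continuousAt (hnhd hzy)).tendsto.comp c4
    have b4 := ((bot_cont hK hKc).continuousAt (hnhd hzy)).tendsto.comp c4
    have m1 := ((cc_cont hK hKc).continuousAt (hnhd hy)).tendsto.comp c1
    have w4 := ((ww_cont hK hKc).continuousAt (hnhd hzy)).tendsto.comp c4
    have w5 := ((ww_cont hK hKc).continuousAt (hnhd hz2)).tendsto.comp c5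
    have e1 : ∀ᶠ q : (Fin m → ℝ) × ℝ × (Fin m → ℝ) in 𝓝 (y, r, z),
        q.2.2 ∈ interior (proj K) ∧ q.2.2 - q.1 ∈ interior (proj K) ∧
          q.2.2 - (2:ℝ) • q.1 ∈ interior (proj K) ∧
          ww K (q.2.2 - q.1) - ww K (q.2.2 - (2:ℝ) • q.1) < q.2.1 := by
      have e2 : Tendsto (fun q : (Fin m → ℝ) × ℝ × (Fin m → ℝ) =>
          q.2.1 - (ww K (q.2.2 - q.1) - ww K (q.2.2 - (2:ℝ) • q.1))) (𝓝 (y, r, z))
          (𝓝 (r - r1)) := c2.sub (w4.sub w5)
      filter_upwards [c3.eventually (hnhd hz), c4.eventually (hnhd hzy), c5.eventually (hnhd hz2),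
        e2.eventually_const_lt (show (0:ℝ) < r - r1 by linarith)] with q q1 q2 q3 q4
      exact ⟨q1, q2, q3, by linarith⟩
    have e3 := hf.and_eventually e1
    constructor
    · have e4 : Tendsto (fun q : (Fin m → ℝ) × ℝ × (Fin m → ℝ) =>
          top K q.2.2 - (top K (q.2.2 - q.1) + cc K q.1 + q.2.1)) (𝓝 (y, r, z))
          (𝓝 (top K z - (top K (z - y) + cc K y + r))) := t3.sub ((t4.add m1).add c2)
      have e5 := le_of_tendsto_of_frequently (b := (0:ℝ)) e4 (e3.mono fun q hq => by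
        obtain ⟨g, q1, q2, q3, q4⟩ := hq
        have := (good_one hK hKc g (interior_subset q1) (interior_subset q2)
          (max_one hK hKc (interior_subset q3) q4.le)).1
        linarith)
      linarith
    · have e4 : Tendsto (fun q : (Fin m → ℝ) × ℝ × (Fin m → ℝ) =>
          (bot K (q.2.2 - q.1) + cc K q.1 - q.2.1) - bot K q.2.2) (𝓝 (y, r, z))
          (𝓝 ((bot K (z - y) + cc K y - r) - bot K z)) := ((b4.add m1).sub c2).sub b3
      have e5 := le_of_tendsto_of_frequently (b := (0:ℝ)) e4 (e3.mono fun q hq => by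
        obtain ⟨g, q1, q2, q3, q4⟩ := hq
        have := (good_one hK hKc g (interior_subset q1) (interior_subset q2)
          (max_one hK hKc (interior_subset q3) q4.le)).2
        linarith)
      linarith
  have hr' := (abs_lt.1 hr).2
  constructor
  · by_contra hcon
    rw [not_le] at hcon
    obtain ⟨r, h1, h2⟩ := exists_between (show r1 < min (ww K y)
      (top K z - top K (z - y) - cc K y) by
        rw [lt_min_iff]; exact ⟨hr', by linarith⟩)
    rw [lt_min_iff] at h2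
    have := (key r h1 h2.1).1
    linarith [h2.2]
  · by_contra hcon
    rw [not_le] at hcon
    obtain ⟨r, h1, h2⟩ := exists_between (show r1 < min (ww K y)
      (bot K (z - y) + cc K y - bot K z) by
        rw [lt_min_iff]; exact ⟨hr', by linarith⟩)
    rw [lt_min_iff] at h2
    have := (key r h1 h2.1).2
    linarith [h2.2]

/-- second pointwise inequality -/
lemma ineq_zero (hK : IsCompact K) (hKc : Convex ℝ K) (h : FF K ≤ FF (St K))
    {y z : Fin m → ℝ} (hy : y ∈ interior (proj K)) (hz : z ∈ interior (proj K))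
    (hzy : z - y ∈ interior (proj K)) (hz2 : z + y ∈ interior (proj K))
    (hr : |ww K (z + y) - ww K z| < ww K y) :
    top K (z - y) + cc K y + (ww K (z + y) - ww K z) ≤ top K z ∧
    bot K z ≤ bot K (z - y) + cc K y - (ww K (z + y) - ww K z) := by
  set r1 := ww K (z + y) - ww K z with hr1
  have hnhd : ∀ {x : Fin m → ℝ}, x ∈ interior (proj K) → interior (proj K) ∈ 𝓝 x :=
    fun hx => isOpen_interior.mem_nhds hx
  have key : ∀ r : ℝ, r < r1 → -ww K y < r →
      top K (z - y) + cc K y + r ≤ top K z ∧ bot K z ≤ bot K (z - y) + cc K y - r := by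
    intro r hr1r hrw
    have hf := freq_good hK hKc h (z0 := z) hy (r0 := r) (by
      rw [abs_lt] at hr ⊢
      exact ⟨hrw, by linarith⟩)
    have c1 : Tendsto (fun q : (Fin m → ℝ) × ℝ × (Fin m → ℝ) => q.1) (𝓝 (y, r, z)) (𝓝 y) :=
      continuous_fst.continuousAt
    have c2 : Tendsto (fun q : (Fin m → ℝ) × ℝ × (Fin m → ℝ) => q.2.1) (𝓝 (y, r, z)) (𝓝 r) :=
      (continuous_fst.comp continuous_snd).continuousAt
    have c3 : Tendsto (fun q : (Fin m → ℝ) × ℝ × (Fin m → ℝ) => q.2.2) (𝓝 (y, r, z)) (𝓝 z) :=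
      (continuous_snd.comp continuous_snd).continuousAt
    have c4 : Tendsto (fun q : (Fin m → ℝ) × ℝ × (Fin m → ℝ) => q.2.2 - q.1) (𝓝 (y, r, z))
        (𝓝 (z - y)) := c3.sub c1
    have c5 : Tendsto (fun q : (Fin m → ℝ) × ℝ × (Fin m → ℝ) => q.2.2 + q.1)
        (𝓝 (y, r, z)) (𝓝 (z + y)) := c3.add c1
    have t3 := ((top_cont hK hKc).continuousAt (hnhd hz)).tendsto.comp c3
    have b3 := ((bot_cont hK hKc).continuousAt (hnhd hz)).tendsto.comp c3
    have w3 := ((ww_cont hK hKc).continuousAt (hnhd hz)).tendsto.comp c3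
    have t4 := ((top_cont hK hKc).continuousAt (hnhd hzy)).tendsto.comp c4
    have b4 := ((bot_cont hK hKc).continuousAt (hnhd hzy)).tendsto.comp c4
    have m1 := ((cc_cont hK hKc).continuousAt (hnhd hy)).tendsto.comp c1
    have w5 := ((ww_cont hK hKc).continuousAt (hnhd hz2)).tendsto.comp c5
    have e1 : ∀ᶠ q : (Fin m → ℝ) × ℝ × (Fin m → ℝ) in 𝓝 (y, r, z),
        q.2.2 ∈ interior (proj K) ∧ q.2.2 - q.1 ∈ interior (proj K) ∧
          q.2.2 + q.1 ∈ interior (proj K) ∧
          q.2.1 < ww K (q.2.2 + q.1) - ww K q.2.2 := by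
      have e2 : Tendsto (fun q : (Fin m → ℝ) × ℝ × (Fin m → ℝ) =>
          (ww K (q.2.2 + q.1) - ww K q.2.2) - q.2.1) (𝓝 (y, r, z))
          (𝓝 (r1 - r)) := (w5.sub w3).sub c2
      filter_upwards [c3.eventually (hnhd hz), c4.eventually (hnhd hzy), c5.eventually (hnhd hz2),
        e2.eventually_const_lt (show (0:ℝ) < r1 - r by linarith)] with q q1 q2 q3 q4
      exact ⟨q1, q2, q3, by linarith⟩
    have e3 := hf.and_eventually e1
    constructor
    · have e4 : Tendsto (fun q : (Fin m → ℝ) × ℝ × (Fin m → ℝ) =>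
          (top K (q.2.2 - q.1) + cc K q.1 + q.2.1) - top K q.2.2) (𝓝 (y, r, z))
          (𝓝 ((top K (z - y) + cc K y + r) - top K z)) := ((t4.add m1).add c2).sub t3
      have e5 := le_of_tendsto_of_frequently (b := (0:ℝ)) e4 (e3.mono fun q hq => by
        obtain ⟨g, q1, q2, q3, q4⟩ := hq
        have := (good_zero hK hKc g (interior_subset q1) (interior_subset q2)
          (max_zero hK hKc (interior_subset q3) q4.le)).1
        linarith)
      linarith
    · have e4 : Tendsto (fun q : (Fin m → ℝ) × ℝ × (Fin m → ℝ) =>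
          bot K q.2.2 - (bot K (q.2.2 - q.1) + cc K q.1 - q.2.1)) (𝓝 (y, r, z))
          (𝓝 (bot K z - (bot K (z - y) + cc K y - r))) := b3.sub ((b4.add m1).sub c2)
      have e5 := le_of_tendsto_of_frequently (b := (0:ℝ)) e4 (e3.mono fun q hq => by
        obtain ⟨g, q1, q2, q3, q4⟩ := hq
        have := (good_zero hK hKc g (interior_subset q1) (interior_subset q2)
          (max_zero hK hKc (interior_subset q3) q4.le)).2
        linarith)
      linarith
  have hr' := (abs_lt.1 hr).1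
  constructor
  · by_contra hcon
    rw [not_le] at hcon
    obtain ⟨r, h1, h2⟩ := exists_between (show max (-ww K y)
      (top K z - top K (z - y) - cc K y) < r1 by
        rw [max_lt_iff]; exact ⟨hr', by linarith⟩)
    rw [max_lt_iff] at h1
    have := (key r h2 h1.1).1
    linarith [h1.2]
  · by_contra hcon
    rw [not_le] at hcon
    obtain ⟨r, h1, h2⟩ := exists_between (show max (-ww K y)
      (bot K (z - y) + cc K y - bot K z) < r1 by
        rw [max_lt_iff]; exact ⟨hr', by linarith⟩)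
    rw [max_lt_iff] at h1
    have := (key r h2 h1.1).2
    linarith [h1.2]

/-- the estimate for the midpoints -/
lemma cc_est (hK : IsCompact K) (hKc : Convex ℝ K) (h : FF K ≤ FF (St K))
    {y z : Fin m → ℝ} (hy : y ∈ interior (proj K)) (hz : z ∈ interior (proj K))
    (hzy : z - y ∈ interior (proj K)) (hz2 : z - (2:ℝ) • y ∈ interior (proj K))
    (hz3 : z + y ∈ interior (proj K))
    (hr : |ww K (z - y) - ww K (z - (2:ℝ) • y)| < ww K y)
    (hr' : |ww K (z + y) - ww K z| < ww K y) :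
    |cc K z - cc K (z - y) - cc K y| ≤
      ((ww K (z - y) - ww K (z - (2:ℝ) • y)) - (ww K (z + y) - ww K z)) / 2 := by
  obtain ⟨a1, a2⟩ := ineq_one hK hKc h hy hz hzy hz2 hr
  obtain ⟨b1, b2⟩ := ineq_zero hK hKc h hy hz hzy hz3 hr'
  have e1 : cc K z = (bot K z + top K z) / 2 := rfl
  have e2 : cc K (z - y) = (bot K (z - y) + top K (z - y)) / 2 := rfl
  rw [abs_le]
  constructor <;> linarith

end Pool.Agent.TH582.Mass
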