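import Pool.Agent.TH582.Mass.D2

/-! Midpoints: additivity. -/

set_option autoImplicit false
open MeasureTheory Set Module Filter Topology Metric
open scoped ENNReal RealInnerProductSpace

namespace Pool.Agent.TH582.Mass

open Pool.Agent.Helper481.RH

variable {m : ℕ} {K : Set (ℝ × (Fin m → ℝ))}

lemma exists_margin {Ω : Set (Fin m → ℝ)} (hΩ : IsOpen Ω) (hΩc : Convex ℝ Ω) {z0 Y : Fin m → ℝ}
    (h0 : z0 ∈ Ω) (h1 : z0 + Y ∈ Ω) :
    ∃ a b : ℝ, a < 0 ∧ 1 < b ∧ ∀ u ∈ Icc a b, z0 + u • Y ∈ Ω := by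
  have hU : IsOpen {u : ℝ | z0 + u • Y ∈ Ω} := hΩ.preimage (by fun_prop)
  have hUc : Convex ℝ {u : ℝ | z0 + u • Y ∈ Ω} := by
    intro u hu v hv s t hs ht hst
    have := hΩc hu hv hs ht hst
    have e : s • (z0 + u • Y) + t • (z0 + v • Y) = z0 + (s • u + t • v) • Y := by
      have e1 : s • (z0 + u • Y) + t • (z0 + v • Y) = (s + t) • z0 + (s • u + t • v) • Y := by
        simp only [smul_eq_mul]; module
      rw [e1, hst, one_smul]
    rw [e] at this
    exact this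
  have m0 : (0:ℝ) ∈ {u : ℝ | z0 + u • Y ∈ Ω} := by simpa using h0
  have m1 : (1:ℝ) ∈ {u : ℝ | z0 + u • Y ∈ Ω} := by simpa using h1
  obtain ⟨ε, hε, hε'⟩ := Metric.isOpen_iff.1 hU 0 m0
  obtain ⟨ε2, hε2, hε2'⟩ := Metric.isOpen_iff.1 hU 1 m1
  have ma : (-(ε / 2)) ∈ {u : ℝ | z0 + u • Y ∈ Ω} := hε' (by
    rw [Metric.mem_ball, Real.dist_eq, abs_lt]; constructor <;> linarith)
  have mb : (1 + ε2 / 2) ∈ {u : ℝ | z0 + u • Y ∈ Ω} := hε2' (by
    rw [Metric.mem_ball, Real.dist_eq, abs_lt]; constructor <;> linarith)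
  exact ⟨-(ε / 2), 1 + ε2 / 2, by linarith, by linarith, fun u hu =>
    hUc.ordConnected.out ma mb hu⟩

lemma tendsto_cc (hK : IsCompact K) (hKc : Convex ℝ K) (h : FF K ≤ FF (St K))
    (h0 : (0 : Fin m → ℝ) ∈ interior (proj K)) (hw : 0 < ww K 0) {z0 Y : Fin m → ℝ}
    (hz : z0 ∈ interior (proj K)) (hzY : z0 + Y ∈ interior (proj K)) :
    Tendsto (fun n : ℕ => (n : ℝ) * cc K ((1 / (n : ℝ)) • Y)) atTop
      (𝓝 (cc K (z0 + Y) - cc K z0)) := by
  obtain ⟨a, b, ha, hb, hab⟩ := exists_margin isOpen_interior (proj_convex hKc).interior hz hzY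
  have hnhd : ∀ {x : Fin m → ℝ}, x ∈ interior (proj K) → interior (proj K) ∈ 𝓝 x :=
    fun hx => isOpen_interior.mem_nhds hx
  set G : ℝ → ℝ := fun u => ww K (z0 + u • Y) with hG
  set C : ℝ → ℝ := fun u => cc K (z0 + u • Y) with hC
  have hGc : ContinuousOn G (Icc a b) := by
    refine (ww_cont hK hKc).comp (by fun_prop) ?_
    exact fun u hu => hab u hu
  have hGu := isCompact_Icc.uniformContinuousOn_of_continuous hGc
  rw [Metric.uniformContinuousOn_iff] at hGu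
  obtain ⟨η, hη, hη'⟩ := hGu (ww K 0 / 2) (by linarith)
  -- eventual conditions
  have ht : Tendsto (fun n : ℕ => 1 / (n : ℝ)) atTop (𝓝 0) := tendsto_one_div_atTop_nhds_zero_nat
  have htY : Tendsto (fun n : ℕ => (1 / (n : ℝ)) • Y) atTop (𝓝 0) := by
    have := ht.smul_const Y
    rwa [zero_smul] at this
  have e1 : ∀ᶠ n : ℕ in atTop, (1 / (n:ℝ)) • Y ∈ interior (proj K) := htY.eventually (hnhd h0)
  have e2 : ∀ᶠ n : ℕ in atTop, ww K 0 / 2 < ww K ((1 / (n:ℝ)) • Y) := by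
    have := ((ww_cont hK hKc).continuousAt (hnhd h0)).tendsto.comp htY
    exact this.eventually_const_lt (by linarith)
  have e3 : ∀ᶠ n : ℕ in atTop, 1 / (n:ℝ) < min η (min (-a) (b - 1)) :=
    ht.eventually_lt_const (by
      rw [lt_min_iff, lt_min_iff]; exact ⟨hη, by linarith, by linarith⟩)
  have key : ∀ᶠ n : ℕ in atTop, |(C 1 - C 0) - n * cc K ((1 / (n:ℝ)) • Y)| ≤
      ((G (1 / (n:ℝ)) - G (-(1 / (n:ℝ)))) - (G (1 + 1 / (n:ℝ)) - G (1 - 1 / (n:ℝ)))) / 2 := by
    filter_upwards [e1, e2, e3, eventually_gt_atTop 0] with n n1 n2 n3 n4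
    rw [lt_min_iff, lt_min_iff] at n3
    set t : ℝ := 1 / (n:ℝ) with htdef
    have hnpos : (0:ℝ) < n := by exact_mod_cast n4
    have htpos : 0 < t := by positivity
    have hnt : (n:ℝ) * t = 1 := by rw [htdef]; field_simp
    have hmem : ∀ s : ℝ, -1 ≤ s → s ≤ n + 1 → s * t ∈ Icc a b := by
      intro s hs1 hs2
      constructor
      · nlinarith
      · nlinarith
    have step : ∀ i ∈ Finset.range n, |C ((i + 1 : ℝ) * t) - C ((i:ℝ) * t) - cc K (t • Y)| ≤
        ((G ((i:ℝ) * t) - G ((i - 1 : ℝ) * t)) - (G ((i + 2 : ℝ) * t) - G ((i + 1 : ℝ) * t))) / 2 := by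
      intro i hi
      have hi' : (i:ℝ) + 1 ≤ n := by exact_mod_cast Finset.mem_range.1 hi
      have hi0 : (0:ℝ) ≤ i := Nat.cast_nonneg i
      have m1 := hmem ((i:ℝ) + 1) (by linarith) (by linarith)
      have m2 := hmem (i:ℝ) (by linarith) (by linarith)
      have m3 := hmem ((i:ℝ) - 1) (by linarith) (by linarith)
      have m4 := hmem ((i:ℝ) + 2) (by linarith) (by linarith)
      have g1 : z0 + ((i + 1 : ℝ) * t) • Y - t • Y = z0 + ((i:ℝ) * t) • Y := by module
      have g2 : z0 + ((i + 1 : ℝ) * t) • Y - (2:ℝ) • t • Y = z0 + ((i - 1 : ℝ) * t) • Y := by module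
      have g3 : z0 + ((i + 1 : ℝ) * t) • Y + t • Y = z0 + ((i + 2 : ℝ) * t) • Y := by module
      have r1 := hη' _ m2 _ m3 (by
        rw [Real.dist_eq, show (i:ℝ) * t - (i - 1 : ℝ) * t = t by ring, abs_of_pos htpos]
        exact n3.1)
      have r2 := hη' _ m4 _ m1 (by
        rw [Real.dist_eq, show (i + 2 : ℝ) * t - (i + 1 : ℝ) * t = t by ring, abs_of_pos htpos]
        exact n3.1)
      rw [Real.dist_eq] at r1 r2
      have := cc_est hK hKc h (y := t • Y) (z := z0 + ((i + 1 : ℝ) * t) • Y) n1 (hab _ m1)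
        (by rw [g1]; exact hab _ m2) (by rw [g2]; exact hab _ m3) (by rw [g3]; exact hab _ m4)
        (by rw [g1, g2]; exact r1.trans n2) (by rw [g3]; exact r2.trans n2)
      rw [g1, g2, g3] at this
      exact this
    have s1 : ∑ i ∈ Finset.range n, (C ((i + 1 : ℝ) * t) - C ((i:ℝ) * t) - cc K (t • Y)) =
        (C 1 - C 0) - n * cc K (t • Y) := by
      rw [Finset.sum_sub_distrib, Finset.sum_const, Finset.card_range, nsmul_eq_mul]
      congr 1
      have := Finset.sum_range_sub (fun i : ℕ => C ((i:ℝ) * t)) n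
      simp only [Nat.cast_add, Nat.cast_one, Nat.cast_zero, zero_mul] at this
      rw [this, hnt]
    have s2 : ∑ i ∈ Finset.range n, (((G ((i:ℝ) * t) - G ((i - 1 : ℝ) * t)) -
        (G ((i + 2 : ℝ) * t) - G ((i + 1 : ℝ) * t))) / 2) =
        ((G t - G (-t)) - (G (1 + t) - G (1 - t))) / 2 := by
      have := Finset.sum_range_sub' (fun i : ℕ => (G ((i + 1 : ℝ) * t) - G ((i - 1 : ℝ) * t)) / 2) n
      simp only [Nat.cast_add, Nat.cast_one, Nat.cast_zero] at this
      have e5 : ∀ i : ℕ, ((G ((i:ℝ) * t) - G ((i - 1 : ℝ) * t)) -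
        (G ((i + 2 : ℝ) * t) - G ((i + 1 : ℝ) * t))) / 2 =
          (G ((i + 1 : ℝ) * t) - G ((i - 1 : ℝ) * t)) / 2 -
          (G ((i + 1 + 1 : ℝ) * t) - G ((i + 1 - 1 : ℝ) * t)) / 2 := by
        intro i
        rw [show (i:ℝ) + 1 + 1 = i + 2 by ring, show (i:ℝ) + 1 - 1 = i by ring]
        ring
      rw [Finset.sum_congr rfl fun i _ => e5 i, this]
      rw [show ((0:ℝ) + 1) * t = t by ring, show ((0:ℝ) - 1) * t = -t by ring,
        show ((n:ℝ) + 1) * t = 1 + t by linarith, show ((n:ℝ) - 1) * t = 1 - t by linarith]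
      ring
    rw [← s1, ← s2]
    exact (Finset.abs_sum_le_sum_abs _ _).trans (Finset.sum_le_sum step)
  have hGat : ∀ u ∈ Ioo a b, ContinuousAt G u := by
    intro u hu
    exact hGc.continuousAt (Icc_mem_nhds hu.1 hu.2)
  have q0 := (hGat 0 ⟨ha, by linarith⟩).tendsto
  have q1 := (hGat 1 ⟨by linarith, hb⟩).tendsto
  have lim : Tendsto (fun n : ℕ => ((G (1 / (n:ℝ)) - G (-(1 / (n:ℝ)))) -
      (G (1 + 1 / (n:ℝ)) - G (1 - 1 / (n:ℝ)))) / 2) atTop (𝓝 0) := by
    have l1 : Tendsto (fun n : ℕ => G (1 / (n:ℝ))) atTop (𝓝 (G 0)) := q0.comp ht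
    have l2 : Tendsto (fun n : ℕ => G (-(1 / (n:ℝ)))) atTop (𝓝 (G 0)) :=
      q0.comp (by simpa using ht.neg)
    have l3 : Tendsto (fun n : ℕ => G (1 + 1 / (n:ℝ))) atTop (𝓝 (G 1)) :=
      q1.comp (by simpa using ht.const_add 1)
    have l4 : Tendsto (fun n : ℕ => G (1 - 1 / (n:ℝ))) atTop (𝓝 (G 1)) :=
      q1.comp (by simpa using ht.const_sub 1)
    have := ((l1.sub l2).sub (l3.sub l4)).div_const 2
    simpa using this
  have hC1 : C 1 = cc K (z0 + Y) := by simp [hC]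
  have hC0 : C 0 = cc K z0 := by simp [hC]
  have lim2 : Tendsto (fun n : ℕ => (C 1 - C 0) - n * cc K ((1 / (n:ℝ)) • Y)) atTop (𝓝 0) :=
    squeeze_zero_norm' (by simpa only [Real.norm_eq_abs] using key) lim
  have lim3 := lim2.const_sub (C 1 - C 0)
  rw [sub_zero] at lim3
  rw [← hC1, ← hC0]
  refine lim3.congr fun n => ?_
  ring

lemma cc_zero (hK : IsCompact K) (hKc : Convex ℝ K) (hsym : ∀ p ∈ K, -p ∈ K)
    (h0 : (0 : Fin m → ℝ) ∈ proj K) : cc K 0 = 0 := by
  have h1 := hsym _ (top_mem hK hKc h0)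
  have h2 := hsym _ (bot_mem hK hKc h0)
  rw [Prod.neg_mk, neg_zero] at h1 h2
  have h3 := (le_top hK hKc h1).2
  have h4 := (le_top hK hKc h2).1
  unfold cc
  linarith

theorem cc_add (hK : IsCompact K) (hKc : Convex ℝ K) (h : FF K ≤ FF (St K))
    (hsym : ∀ p ∈ K, -p ∈ K)
    (h0 : (0 : Fin m → ℝ) ∈ interior (proj K)) (hw : 0 < ww K 0) {x y : Fin m → ℝ}
    (hx : x ∈ interior (proj K)) (hy : y ∈ interior (proj K)) (hxy : x + y ∈ interior (proj K)) :
    cc K (x + y) = cc K x + cc K y := by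
  have h1 := tendsto_cc hK hKc h h0 hw hx hxy
  have h2 := tendsto_cc hK hKc h h0 hw (z0 := 0) (Y := y) h0 (by rwa [zero_add])
  have h3 := tendsto_nhds_unique h1 h2
  rw [zero_add, cc_zero hK hKc hsym (interior_subset h0)] at h3
  linarith

/-- homogeneity of additive continuous functions on convex sets -/
lemma homog {Ω : Set (Fin m → ℝ)} (hΩc : Convex ℝ Ω) (h0 : (0 : Fin m → ℝ) ∈ Ω)
    {f : (Fin m → ℝ) → ℝ} (hf : ContinuousOn f Ω)
    (hadd : ∀ x ∈ Ω, ∀ y ∈ Ω, x + y ∈ Ω → f (x + y) = f x + f y) {x : Fin m → ℝ} (hx : x ∈ Ω)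
    {t : ℝ} (ht0 : 0 ≤ t) (ht1 : t ≤ 1) : f (t • x) = t * f x := by
  have hmem : ∀ s : ℝ, 0 ≤ s → s ≤ 1 → s • x ∈ Ω := fun s hs0 hs1 =>
    hΩc.smul_mem_of_zero_mem h0 hx ⟨hs0, hs1⟩
  have hf0 : f 0 = 0 := by
    have := hadd 0 h0 0 h0 (by rwa [add_zero])
    rw [add_zero] at this
    linarith
  have h1 : ∀ n : ℕ, 0 < n → ∀ k : ℕ, k ≤ n → f (((k:ℝ) / n) • x) = k * f ((1 / (n:ℝ)) • x) := by
    intro n hn k
    induction k with
    | zero => intro _; simp [hf0]
    | succ k ih =>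
      intro hk
      have hn' : (0:ℝ) < n := by exact_mod_cast hn
      have hk' : (k:ℝ) + 1 ≤ n := by exact_mod_cast hk
      have hk0 : (0:ℝ) ≤ k := Nat.cast_nonneg k
      have e : (((k + 1 : ℕ) : ℝ) / n) • x = ((k:ℝ) / n) • x + (1 / (n:ℝ)) • x := by
        rw [← add_smul]; push_cast; rw [add_div]
      have m1 : ((k:ℝ) / n) • x ∈ Ω := hmem _ (by positivity) (by
        rw [div_le_one hn']; linarith)
      have m2 : (1 / (n:ℝ)) • x ∈ Ω := hmem _ (by positivity) (by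
        rw [div_le_one hn']; linarith)
      have m3 : (((k + 1 : ℕ) : ℝ) / n) • x ∈ Ω := hmem _ (by positivity) (by
        rw [div_le_one hn']; push_cast; linarith)
      rw [e] at m3 ⊢
      rw [hadd _ m1 _ m2 m3, ih (by omega)]
      push_cast; ring
  have h2 : ∀ n : ℕ, 0 < n → ∀ k : ℕ, k ≤ n → f (((k:ℝ) / n) • x) = ((k:ℝ) / n) * f x := by
    intro n hn k hk
    have hn' : (0:ℝ) < n := by exact_mod_cast hn
    have h3 := h1 n hn n le_rfl
    rw [div_self hn'.ne', one_smul] at h3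
    rw [h1 n hn k hk, h3]
    field_simp
  -- rational approximation
  have hlim : Tendsto (fun n : ℕ => ((⌊t * n⌋₊ : ℕ) : ℝ) / n) atTop (𝓝 t) :=
    (tendsto_nat_floor_mul_div_atTop ht0).comp tendsto_natCast_atTop_atTop
  have hle : ∀ n : ℕ, 0 < n → ⌊t * n⌋₊ ≤ n := by
    intro n hn
    have : t * n ≤ n := by
      have hn' : (0:ℝ) ≤ n := Nat.cast_nonneg n
      nlinarith
    exact Nat.floor_le_of_le this
  have hcont : Tendsto (fun n : ℕ => f ((((⌊t * n⌋₊ : ℕ) : ℝ) / n) • x)) atTop (𝓝 (f (t • x))) := by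
    have h3 : ContinuousWithinAt f Ω (t • x) := hf _ (hmem t ht0 ht1)
    refine h3.tendsto.comp ?_
    rw [tendsto_nhdsWithin_iff]
    refine ⟨hlim.smul_const x, ?_⟩
    filter_upwards [eventually_gt_atTop 0] with n hn
    have hn' : (0:ℝ) < n := by exact_mod_cast hn
    refine hmem _ (by positivity) ?_
    rw [div_le_one hn']
    exact_mod_cast hle n hn
  have hcont2 : Tendsto (fun n : ℕ => (((⌊t * n⌋₊ : ℕ) : ℝ) / n) * f x) atTop (𝓝 (t * f x)) :=
    hlim.mul_const _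
  refine tendsto_nhds_unique hcont (hcont2.congr' ?_)
  filter_upwards [eventually_gt_atTop 0] with n hn
  exact (h2 n hn _ (hle n hn)).symm

/-- additive continuous functions on convex neighbourhoods of the origin are linear -/
lemma linear_of_additive {Ω : Set (Fin m → ℝ)} (hΩc : Convex ℝ Ω) (hΩ : Ω ∈ 𝓝 (0 : Fin m → ℝ))
    {f : (Fin m → ℝ) → ℝ} (hf : ContinuousOn f Ω)
    (hadd : ∀ x ∈ Ω, ∀ y ∈ Ω, x + y ∈ Ω → f (x + y) = f x + f y) :
    ∃ q : Fin m → ℝ, ∀ y ∈ Ω, f y = ∑ i, q i * y i := by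
  have h0 : (0 : Fin m → ℝ) ∈ Ω := mem_of_mem_nhds hΩ
  have hhom := fun {x : Fin m → ℝ} hx {t : ℝ} h1 h2 => homog hΩc h0 hf hadd (x := x) hx (t := t) h1 h2
  have hf0 : f 0 = 0 := by
    have := hadd 0 h0 0 h0 (by rwa [add_zero])
    rw [add_zero] at this
    linarith
  obtain ⟨δ, hδ, hball⟩ := Metric.nhds_basis_closedBall.mem_iff.1 hΩ
  have hcube : ∀ y : Fin m → ℝ, (∀ i, |y i| ≤ δ) → y ∈ Ω := by
    intro y hy
    apply hball
    rw [mem_closedBall_zero_iff, pi_norm_le_iff_of_nonneg hδ.le]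
    exact hy
  have hsingle : ∀ (i : Fin m) (s : ℝ), |s| ≤ δ → Pi.single i s ∈ Ω := by
    intro i s hs
    apply hcube
    intro j
    by_cases hij : j = i
    · subst hij; simpa using hs
    · simp [hij, hδ.le]
  have hneg : ∀ x : Fin m → ℝ, x ∈ Ω → -x ∈ Ω → f (-x) = -f x := by
    intro x hx hx'
    have := hadd x hx (-x) hx' (by rwa [add_neg_cancel])
    rw [add_neg_cancel, hf0] at this
    linarith
  set q : Fin m → ℝ := fun i => f (Pi.single i δ) / δ with hq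
  have hs : ∀ (i : Fin m) (s : ℝ), |s| ≤ δ → f (Pi.single i s) = q i * s := by
    have hpos : ∀ (i : Fin m) (s : ℝ), 0 ≤ s → s ≤ δ → f (Pi.single i s) = q i * s := by
      intro i s hs0 hs1
      have e : (Pi.single i s : Fin m → ℝ) = (s / δ) • Pi.single i δ := by
        rw [← Pi.single_smul, smul_eq_mul, div_mul_cancel₀ _ hδ.ne']
      rw [e, hhom (hsingle i δ (by rw [abs_of_pos hδ])) (by positivity)
        (by rw [div_le_one hδ]; exact hs1), hq]
      ring
    intro i s hs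
    rcases le_total 0 s with h | h
    · exact hpos i s h (by rwa [abs_of_nonneg h] at hs)
    · have h1 := hpos i (-s) (by linarith) (by rwa [abs_of_nonpos h] at hs)
      have e : (Pi.single i s : Fin m → ℝ) = -Pi.single i (-s) := by
        rw [← Pi.single_neg, neg_neg]
      have hs' : |(-s)| ≤ δ := by rwa [abs_neg]
      rw [e, hneg _ (hsingle i _ hs') (by rw [← e]; exact hsingle i _ hs), h1]
      ring
  have hsum : ∀ y : Fin m → ℝ, (∀ i, |y i| ≤ δ) → ∀ S : Finset (Fin m),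
      f (∑ i ∈ S, Pi.single i (y i)) = ∑ i ∈ S, q i * y i := by
    intro y hy S
    have hmemS : ∀ T : Finset (Fin m), (∑ i ∈ T, Pi.single i (y i) : Fin m → ℝ) ∈ Ω := by
      intro T
      apply hcube
      intro j
      rw [Finset.sum_apply]
      by_cases hj : j ∈ T
      · rw [Finset.sum_eq_single j]
        · simpa using hy j
        · intro b _ hb
          simp [Ne.symm hb]
        · intro h; exact absurd hj h
      · rw [Finset.sum_eq_zero]
        · simp [hδ.le]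
        · intro b hb
          have : j ≠ b := fun h => hj (h ▸ hb)
          simp [this]
    induction S using Finset.induction_on with
    | empty => simp [hf0]
    | insert i S hi ih =>
      have hm := hmemS (insert i S)
      rw [Finset.sum_insert hi] at hm ⊢
      rw [hadd _ (hsingle i _ (hy i)) _ (hmemS S) hm, ih, hs i _ (hy i), Finset.sum_insert hi]
  have hcubef : ∀ y : Fin m → ℝ, (∀ i, |y i| ≤ δ) → f y = ∑ i, q i * y i := by
    intro y hy
    have := hsum y hy Finset.univ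
    rwa [Finset.univ_sum_single] at this
  refine ⟨q, fun y hy => ?_⟩
  obtain ⟨t, ht0, ht1, hty⟩ : ∃ t : ℝ, 0 < t ∧ t ≤ 1 ∧ ∀ i, |(t • y) i| ≤ δ := by
    refine ⟨δ / (δ + ‖y‖), by positivity, ?_, fun i => ?_⟩
    · rw [div_le_one (by positivity)]; linarith [norm_nonneg y]
    · rw [Pi.smul_apply, smul_eq_mul, abs_mul, abs_of_pos (by positivity), div_mul_eq_mul_div,
        div_le_iff₀ (by positivity)]
      have : |y i| ≤ ‖y‖ := norm_le_pi_norm y i
      nlinarith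
  have h3 := hcubef _ hty
  rw [hhom hy ht0.le ht1] at h3
  have h4 : ∑ i, q i * (t • y) i = t * ∑ i, q i * y i := by
    rw [Finset.mul_sum]
    refine Finset.sum_congr rfl fun i _ => ?_
    rw [Pi.smul_apply, smul_eq_mul]; ring
  rw [h4] at h3
  exact mul_left_cancel₀ ht0.ne' h3

/-- the midpoints are coplanar -/
theorem cc_linear (hK : IsCompact K) (hKc : Convex ℝ K) (h : FF K ≤ FF (St K))
    (hsym : ∀ p ∈ K, -p ∈ K) (hK0 : K ∈ 𝓝 (0 : ℝ × (Fin m → ℝ))) :
    ∃ q : Fin m → ℝ, ∀ y ∈ interior (proj K), cc K y = ∑ i, q i * y i := by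
  have hp : proj K ∈ 𝓝 (0 : Fin m → ℝ) := by
    have h1 : Prod.snd '' K ∈ 𝓝 (0 : ℝ × (Fin m → ℝ)).2 :=
      isOpenMap_snd.image_mem_nhds hK0
    exact h1
  have h0 : (0 : Fin m → ℝ) ∈ interior (proj K) := mem_interior_iff_mem_nhds.2 hp
  have hw : 0 < ww K 0 := by
    obtain ⟨ε, hε, hball⟩ := Metric.nhds_basis_closedBall.mem_iff.1 hK0
    have m1 : ((ε, 0) : ℝ × (Fin m → ℝ)) ∈ K := hball (by
      rw [mem_closedBall_zero_iff, Prod.norm_def]
      simp [abs_of_pos hε, hε.le])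
    have m2 : ((-ε, 0) : ℝ × (Fin m → ℝ)) ∈ K := hball (by
      rw [mem_closedBall_zero_iff, Prod.norm_def]
      simp [abs_of_pos hε, hε.le])
    have := (le_top hK hKc m1).1
    have := (le_top hK hKc m2).2
    unfold ww
    linarith
  exact linear_of_additive (proj_convex hKc).interior (isOpen_interior.mem_nhds h0)
    (cc_cont hK hKc) fun x hx y hy hxy => cc_add hK hKc h hsym h0 hw hx hy hxy

end Pool.Agent.TH582.Mass
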