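import Pool.Agent.TH582.Mass.D3

/-! In the case of equality the Steiner symmetral is a sheared copy. -/

set_option autoImplicit false
open MeasureTheory Set Module Filter Topology Metric
open scoped ENNReal RealInnerProductSpace

namespace Pool.Agent.TH582.Mass

open Pool.Agent.Helper481.RH

variable {m : ℕ} {K : Set (ℝ × (Fin m → ℝ))}

/-- the shear `(s, y) ↦ (s - q · y, y)` -/
noncomputable def shear (q : Fin m → ℝ) : (ℝ × (Fin m → ℝ)) ≃L[ℝ] (ℝ × (Fin m → ℝ)) :=
  LinearEquiv.toContinuousLinearEquiv
    { toFun := fun p => (p.1 - ∑ i, q i * p.2 i, p.2)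
      map_add' := by
        intro p p'
        refine Prod.ext ?_ rfl
        simp only [Prod.fst_add, Prod.snd_add, Pi.add_apply, mul_add, Finset.sum_add_distrib]
        ring
      map_smul' := by
        intro c p
        refine Prod.ext ?_ rfl
        simp only [Prod.smul_fst, Prod.smul_snd, Pi.smul_apply, smul_eq_mul, RingHom.id_apply,
          mul_sub, Finset.mul_sum]
        congr 1
        exact Finset.sum_congr rfl fun i _ => by ring
      invFun := fun p => (p.1 + ∑ i, q i * p.2 i, p.2)
      left_inv := by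
        intro p
        refine Prod.ext ?_ rfl
        simp
      right_inv := by
        intro p
        refine Prod.ext ?_ rfl
        simp }

lemma shear_apply (q : Fin m → ℝ) (p : ℝ × (Fin m → ℝ)) :
    shear q p = (p.1 - ∑ i, q i * p.2 i, p.2) := rfl

lemma fib_shear (q : Fin m → ℝ) (K : Set (ℝ × (Fin m → ℝ))) (y : Fin m → ℝ) :
    fib (shear q '' K) y = (fun s => s + ∑ i, q i * y i) ⁻¹' fib K y := by
  ext s
  rw [mem_preimage, mem_fib, mem_fib]
  constructor
  · rintro ⟨⟨s', y'⟩, hp, he⟩
    rw [shear_apply, Prod.mk.injEq] at he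
    obtain ⟨h1, h2⟩ := he
    simp only at h1 h2
    subst h2
    have : s + ∑ i, q i * y' i = s' := by rw [← h1]; ring
    rwa [this]
  · intro h
    refine ⟨_, h, ?_⟩
    rw [shear_apply]
    simp

theorem exists_shear (hK : IsCompact K) (hKc : Convex ℝ K) (h : FF K ≤ FF (St K))
    (hsym : ∀ p ∈ K, -p ∈ K) (hK0 : K ∈ 𝓝 (0 : ℝ × (Fin m → ℝ))) :
    ∃ T : (ℝ × (Fin m → ℝ)) ≃L[ℝ] (ℝ × (Fin m → ℝ)), volume (T '' K) = volume K ∧
      ∫⁻ p in T '' K, wt p = ∫⁻ p in St K, wt p := by
  obtain ⟨q, hq⟩ := cc_linear hK hKc h hsym hK0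
  have hTK : IsCompact (shear q '' K) := hK.image (shear q).continuous
  refine ⟨shear q, ?_, ?_⟩
  · rw [volume_eq_lintegral_fib hTK.measurableSet, volume_eq_lintegral_fib hK.measurableSet]
    refine lintegral_congr fun y => ?_
    rw [fib_shear]
    exact measure_preimage_add_right _ _ _
  · rw [lintegral_wt hTK.measurableSet, lintegral_wt (St_compact hK).measurableSet]
    have hfr : volume (frontier (proj K)) = 0 := (proj_convex hKc).addHaar_frontier volume
    refine lintegral_congr_ae ?_
    filter_upwards [measure_eq_zero_iff_ae_notMem.1 hfr] with y hy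
    have hcl : IsClosed (proj K) := (proj_compact hK).isClosed
    by_cases hyP : y ∈ proj K
    · have hyi : y ∈ interior (proj K) := by
        by_contra hcon
        exact hy ⟨subset_closure hyP, hcon⟩
      obtain ⟨hI, hle⟩ := fib_Icc hK hKc hyP
      have h1 : fib (shear q '' K) y = fib (St K) y := by
        rw [fib_shear, fib_St_Icc hI, hI, ← hq y hyi]
        ext s
        simp only [mem_preimage, mem_Icc, cc]
        constructor <;> rintro ⟨h1, h2⟩ <;> constructor <;> linarith
      rw [h1]
    · have he : fib K y = ∅ := by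
        rw [← not_nonempty_iff_eq_empty]
        exact fun hne => hyP (fib_nonempty_iff.1 hne)
      rw [fib_shear, he, fib_St_empty he, preimage_empty]

end Pool.Agent.TH582.Mass
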