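import Pool.Agent.TH582.Mass.U

/-! The position of minimal second moment. -/

set_option autoImplicit false
open MeasureTheory Set Module Filter Topology Metric
open scoped ENNReal RealInnerProductSpace

namespace Pool.Agent.TH582.Mass

open Pool.Agent.Helper481.RH Pool.Agent.Helper481.MB

variable {m : ℕ}

/-- second moment of `B '' M`, up to the determinant -/
noncomputable def gm (M : Set (EE m)) (B : EE m →L[ℝ] EE m) : ℝ := ∫ x in M, ‖B x‖ ^ 2

lemma gm_continuous {M : Set (EE m)} (hM : IsCompact M) : Continuous (gm M) := by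
  unfold gm
  have h : Continuous (Function.uncurry fun (B : EE m →L[ℝ] EE m) (x : EE m) => ‖B x‖ ^ 2) := by
    unfold Function.uncurry
    have : Continuous fun q : (EE m →L[ℝ] EE m) × EE m => q.1 q.2 :=
      isBoundedBilinearMap_apply.continuous
    exact (this.norm).pow 2
  exact continuous_parametric_integral_of_continuous h hM

lemma gm_nonneg (M : Set (EE m)) (B : EE m →L[ℝ] EE m) : 0 ≤ gm M B :=
  integral_nonneg fun x => by positivity

lemma gm_smul (M : Set (EE m)) (B : EE m →L[ℝ] EE m) (c : ℝ) : gm M (c • B) = c ^ 2 * gm M B := by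
  unfold gm
  rw [← integral_const_mul]
  congr 1
  ext x
  rw [smul_apply, norm_smul, mul_pow, Real.norm_eq_abs, sq_abs]

lemma gm_pos {M : Set (EE m)} (hM : IsCompact M) (h0 : M ∈ 𝓝 (0 : EE m))
    {B : EE m →L[ℝ] EE m} (hB : B ≠ 0) : 0 < gm M B := by
  unfold gm
  have hcont : Continuous fun x : EE m => ‖B x‖ ^ 2 := by fun_prop
  rw [setIntegral_pos_iff_support_of_nonneg_ae
    (Eventually.of_forall fun x => by positivity) (hcont.continuousOn.integrableOn_compact hM)]
  have hopen : IsOpen ((Function.support fun x : EE m => ‖B x‖ ^ 2) ∩ interior M) :=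
    (hcont.isOpen_support).inter isOpen_interior
  have hne : ((Function.support fun x : EE m => ‖B x‖ ^ 2) ∩ interior M).Nonempty := by
    obtain ⟨x, hx⟩ : ∃ x, B x ≠ 0 := by
      by_contra hcon
      push Not at hcon
      exact hB (ContinuousLinearMap.ext hcon)
    have h1 : Tendsto (fun t : ℝ => t • x) (𝓝[>] 0) (𝓝 0) := by
      have : Tendsto (fun t : ℝ => t • x) (𝓝 0) (𝓝 ((0:ℝ) • x)) :=
        (continuous_id.smul continuous_const).tendsto 0
      rw [zero_smul] at this
      exact this.mono_left nhdsWithin_le_nhds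
    have h2 : interior M ∈ 𝓝 (0 : EE m) := interior_mem_nhds.2 h0
    obtain ⟨t, ht, ht0⟩ := ((h1.eventually h2).and self_mem_nhdsWithin).exists
    have ht0' : (0:ℝ) < t := ht0
    refine ⟨t • x, ?_, ht⟩
    rw [Function.mem_support, map_smul]
    have : t • B x ≠ 0 := smul_ne_zero ht0'.ne' hx
    positivity
  exact (hopen.measure_pos _ hne).trans_le (measure_mono (inter_subset_inter_right _ interior_subset))

lemma gm_coercive {M : Set (EE m)} (hM : IsCompact M) (h0 : M ∈ 𝓝 (0 : EE m)) :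
    ∃ ε > 0, ∀ B : EE m →L[ℝ] EE m, ε * ‖B‖ ^ 2 ≤ gm M B := by
  have : ProperSpace (EE m →L[ℝ] EE m) := FiniteDimensional.proper_real _
  have hcpt : IsCompact (sphere (0 : EE m →L[ℝ] EE m) 1) := isCompact_sphere _ _
  have hne : (sphere (0 : EE m →L[ℝ] EE m) 1).Nonempty := by
    refine ⟨ContinuousLinearMap.id ℝ _, ?_⟩
    rw [mem_sphere_zero_iff_norm]
    exact ContinuousLinearMap.norm_id
  obtain ⟨B0, hB0, hmin⟩ := hcpt.exists_isMinOn hne (gm_continuous hM).continuousOn
  rw [mem_sphere_zero_iff_norm] at hB0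
  have hB0' : B0 ≠ 0 := by
    rintro rfl
    rw [norm_zero] at hB0
    exact zero_ne_one hB0
  refine ⟨gm M B0, gm_pos hM h0 hB0', fun B => ?_⟩
  by_cases hB : B = 0
  · subst hB
    rw [norm_zero]
    simpa using gm_nonneg M (0 : EE m →L[ℝ] EE m)
  · have hpos : 0 < ‖B‖ := norm_pos_iff.2 hB
    have h1 : gm M B0 ≤ gm M (‖B‖⁻¹ • B) := hmin (by
      rw [mem_sphere_zero_iff_norm, norm_smul, norm_inv, norm_norm, inv_mul_cancel₀ hpos.ne'])
    rw [gm_smul] at h1
    have h2 : gm M B0 * ‖B‖ ^ 2 ≤ ‖B‖⁻¹ ^ 2 * gm M B * ‖B‖ ^ 2 := by gcongr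
    refine h2.trans (le_of_eq ?_)
    field_simp

lemma exists_min_gm {M : Set (EE m)} (hM : IsCompact M) (h0 : M ∈ 𝓝 (0 : EE m)) :
    ∃ B0 : EE m →L[ℝ] EE m, |B0.det| = 1 ∧ ∀ B : EE m →L[ℝ] EE m, |B.det| = 1 → gm M B0 ≤ gm M B := by
  have : ProperSpace (EE m →L[ℝ] EE m) := FiniteDimensional.proper_real _
  obtain ⟨ε, hε, hco⟩ := gm_coercive hM h0
  set g1 := gm M (ContinuousLinearMap.id ℝ (EE m)) with hg1
  have hg1n : 0 ≤ g1 := gm_nonneg _ _
  set R : ℝ := g1 / ε + 1 with hR
  have hR1 : 1 ≤ R := by rw [hR]; linarith [div_nonneg hg1n hε.le]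
  have hRg : g1 ≤ ε * R ^ 2 := by
    have h1 : g1 = ε * (g1 / ε) := by field_simp
    have h2 : g1 / ε ≤ R ^ 2 := by
      have : g1 / ε ≤ R := by rw [hR]; linarith
      nlinarith
    calc g1 = ε * (g1 / ε) := h1
      _ ≤ ε * R ^ 2 := by gcongr
  have hcl : IsClosed {B : EE m →L[ℝ] EE m | |B.det| = 1} :=
    isClosed_eq (ContinuousLinearMap.continuous_det.abs) continuous_const
  have hcpt : IsCompact (closedBall (0 : EE m →L[ℝ] EE m) R ∩ {B | |B.det| = 1}) :=
    (isCompact_closedBall _ _).inter_right hcl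
  have hid : (ContinuousLinearMap.id ℝ (EE m)) ∈
      (closedBall (0 : EE m →L[ℝ] EE m) R ∩ {B | |B.det| = 1}) := by
    constructor
    · rw [mem_closedBall_zero_iff]
      exact ContinuousLinearMap.norm_id_le.trans hR1
    · show |(ContinuousLinearMap.id ℝ (EE m)).det| = 1
      rw [ContinuousLinearMap.det]
      simp
  obtain ⟨B0, hB0, hmin⟩ := hcpt.exists_isMinOn ⟨_, hid⟩ (gm_continuous hM).continuousOn
  refine ⟨B0, hB0.2, fun B hB => ?_⟩
  by_cases hBR : ‖B‖ ≤ R
  · exact hmin ⟨mem_closedBall_zero_iff.2 hBR, hB⟩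
  · rw [not_le] at hBR
    have h1 : gm M B0 ≤ g1 := hmin hid
    have h2 := hco B
    have h3 : ε * R ^ 2 ≤ ε * ‖B‖ ^ 2 := by gcongr
    linarith

lemma mom_image {M : Set (EE m)} (hM : IsCompact M) {B : EE m →L[ℝ] EE m} (hB : |B.det| = 1) :
    mom (B '' M) = ENNReal.ofReal (gm M B) := by
  have hinj : Function.Injective B := by
    have h1 : LinearMap.det (B : EE m →ₗ[ℝ] EE m) ≠ 0 := by
      intro h
      have : B.det = 0 := h
      rw [this, abs_zero] at hB
      exact zero_ne_one hB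
    exact (LinearMap.equivOfDetNeZero _ h1).injective
  have h2 : Continuous fun x : EE m => ‖B x‖ ^ 2 := by fun_prop
  unfold mom gm
  rw [lintegral_image_eq_lintegral_abs_det_fderiv_mul volume hM.measurableSet
    (fun x _ => B.hasFDerivWithinAt) hinj.injOn,
    ofReal_integral_eq_lintegral_ofReal (h2.continuousOn.integrableOn_compact hM)
      (Eventually.of_forall fun x => by positivity)]
  refine lintegral_congr fun x => ?_
  rw [hB, ENNReal.ofReal_one, one_mul]

/-- existence of a volume preserving linear image of minimal second moment -/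
theorem exists_position {M : Set (EE m)} (hM : IsCompact M) (h0 : M ∈ 𝓝 (0 : EE m)) :
    ∃ B0 : EE m →L[ℝ] EE m, |B0.det| = 1 ∧
      ∀ B : EE m →L[ℝ] EE m, |B.det| = 1 → mom (B0 '' M) ≤ mom (B '' M) := by
  obtain ⟨B0, hB0, hmin⟩ := exists_min_gm hM h0
  refine ⟨B0, hB0, fun B hB => ?_⟩
  rw [mom_image hM hB0, mom_image hM hB]
  exact ENNReal.ofReal_le_ofReal (hmin B hB)

end Pool.Agent.TH582.Mass
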