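import Pool.Agent.TH582.Mass.D5
import Pool.Agent.TH582.Mass.E

/-! Equality in Macbeath's inequality for symmetric bodies: ellipsoids only. -/

set_option autoImplicit false
open MeasureTheory Set Module Filter Topology Metric
open scoped ENNReal RealInnerProductSpace

namespace Pool.Agent.TH582.Mass

open Pool.Agent.Helper481.RH Pool.Agent.Helper481.MB

variable {m : ℕ}

lemma vol_closedBall {ρ : ℝ} (hρ : 0 ≤ ρ) :
    volume (closedBall (0 : EE m) ρ) = ENNReal.ofReal (ρ ^ (m + 1)) * kap (m + 1) := by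
  rw [kap, Measure.addHaar_closedBall' _ _ hρ]
  simp

lemma kap_ne_zero (n : ℕ) : kap n ≠ 0 := by
  unfold kap
  exact (measure_closedBall_pos _ _ one_pos).ne'

lemma kap_ne_top (n : ℕ) : kap n ≠ ∞ := by
  unfold kap
  exact measure_closedBall_lt_top.ne

/-- the functional at a body with equality in Macbeath's inequality is at most its value at every
ball of at least the same volume -/
lemma FF_le_ball {M : Set (EE m)} (hM : IsCompact M) (hMc : Convex ℝ M) (h0 : M ∈ 𝓝 (0 : EE m))
    {A : ℝ} (hA0 : 0 < A) (hA : PropD M A)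
    (hv : volume M = kap (m + 1) * ENNReal.ofReal A) {ρ : ℝ} (hρ : 0 ≤ ρ)
    (hMρ : volume M ≤ volume (closedBall (0 : EE m) ρ)) :
    FF M ≤ FF (closedBall (0 : EE m) ρ) := by
  set ρ0 : ℝ := A ^ (1 / ((m + 1 : ℕ) : ℝ)) with hρ0
  have hρ0pos : 0 < ρ0 := Real.rpow_pos_of_pos hA0 _
  have hpow : ρ0 ^ (m + 1) = A := by
    rw [hρ0, ← Real.rpow_natCast, ← Real.rpow_mul hA0.le, one_div,
      inv_mul_cancel₀ (by positivity), Real.rpow_one]
  have hvol0 : volume (closedBall (0 : EE m) ρ0) = volume M := by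
    rw [vol_closedBall hρ0pos.le, hpow, hv, mul_comm]
  have h1 : FF M ≤ FF (closedBall (0 : EE m) ρ0) := by
    refine (FF_upper hM hMc h0 hA).trans (le_trans (le_of_eq ?_) (FF_ball hρ0pos))
    rw [hvol0, hpow, lintegral_gauge hM hMc h0, lintegral_gauge (isCompact_closedBall _ _)
      (convex_closedBall _ _) (closedBall_mem_nhds _ hρ0pos), hvol0]
  refine h1.trans (FF_mono (closedBall_subset_closedBall ?_))
  rw [← hvol0, vol_closedBall hρ0pos.le, vol_closedBall hρ,
    ENNReal.mul_le_mul_iff_left (kap_ne_zero _) (kap_ne_top _),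
    ENNReal.ofReal_le_ofReal_iff (by positivity)] at hMρ
  exact (pow_le_pow_iff_left₀ hρ0pos.le hρ (Nat.succ_ne_zero m)).1 hMρ

lemma propD_image {M : Set (EE m)} {A : ℝ} (hA : PropD M A) {B : EE m →L[ℝ] EE m}
    (hB : |B.det| = 1) : PropD (B '' M) A := by
  intro v hv
  choose x hx hxv using hv
  have h1 : v = (B : EE m →ₗ[ℝ] EE m) ∘ x := by
    funext i
    exact (hxv i).symm
  have h2 := hA x hx
  have h3 : |LinearMap.det (B : EE m →ₗ[ℝ] EE m)| = 1 := hB
  rw [adet, h1, Basis.det_comp, abs_mul, h3, one_mul]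
  exact h2

lemma volume_image_of_det {M : Set (EE m)} {B : EE m →L[ℝ] EE m}
    (hB : |B.det| = 1) : volume (B '' M) = volume M := by
  have h3 : |LinearMap.det (B : EE m →ₗ[ℝ] EE m)| = 1 := hB
  rw [Measure.addHaar_image_continuousLinearMap, hB, ENNReal.ofReal_one, one_mul]

/-- a body in the position of minimal second moment with equality in Macbeath's inequality is
symmetric with respect to all hyperplanes through the origin -/
lemma symm_of_position {M : Set (EE m)} (hM : IsCompact M) (hMc : Convex ℝ M)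
    (h0 : M ∈ 𝓝 (0 : EE m)) (hneg : ∀ x ∈ M, -x ∈ M)
    {A : ℝ} (hA0 : 0 < A) (hA : PropD M A)
    (hv : volume M = kap (m + 1) * ENNReal.ofReal A)
    (hpos : ∀ B : EE m →L[ℝ] EE m, |B.det| = 1 → mom M ≤ mom (B '' M))
    {v : EE m} (hv1 : ‖v‖ = 1) : ∀ x ∈ M, x - (2 * ⟪v, x⟫) • v ∈ M := by
  obtain ⟨b, hb⟩ := exists_basis hv1
  set K : Set (ℝ × (Fin m → ℝ)) := coord b '' M with hKdef
  have hK : IsCompact K := hM.image (coord b).continuous
  have hKc : Convex ℝ K := hMc.linear_image (coord b).toLinearEquiv.toLinearMap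
  have hVpos : volume M ≠ 0 := (Measure.measure_pos_of_mem_nhds volume h0).ne'
  have hVtop : volume M ≠ ∞ := hM.measure_lt_top.ne
  -- the symmetral has the same value of the functional
  have hFS : FF K ≤ FF (St K) := by
    have hL : IsCompact ((coord b).symm '' St K) := (St_compact hK).image (coord b).symm.continuous
    have hLc : Convex ℝ ((coord b).symm '' St K) :=
      (St_convex hKc).linear_image (coord b).symm.toLinearEquiv.toLinearMap
    have hcL : coord b '' ((coord b).symm '' St K) = St K := by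
      rw [image_image]
      simp
    have hvL : volume ((coord b).symm '' St K) = volume M := by
      rw [← volume_coord_image b, hcL, volume_St hK hKc, hKdef, volume_coord_image]
    obtain ⟨ρ, hρ, hρv, hρF⟩ := FF_ball_le hL hLc (by rw [hvL]; exact hVpos)
    rw [hvL] at hρv
    rw [← FF_coord b ((coord b).symm '' St K), hcL] at hρF
    have h2 := FF_le_ball hM hMc h0 hA0 hA hv hρ hρv
    rw [hKdef, FF_coord]
    exact h2.trans hρF
  have hsymK : ∀ p ∈ K, -p ∈ K := by
    rintro _ ⟨x, hx, rfl⟩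
    exact ⟨-x, hneg x hx, by rw [map_neg]⟩
  have hK0 : K ∈ 𝓝 (0 : ℝ × (Fin m → ℝ)) := by
    have h1 := (coord b).toHomeomorph.isOpenMap.image_mem_nhds h0
    have h2 : (coord b).toHomeomorph (0 : EE m) = 0 := map_zero (coord b)
    rw [h2] at h1
    exact h1
  obtain ⟨T, hTv, hTm⟩ := exists_shear hK hKc hFS hsymK hK0
  -- the corresponding map of Euclidean space
  set B : EE m →L[ℝ] EE m :=
    ContinuousLinearEquiv.toContinuousLinearMap (((coord b).trans T).trans (coord b).symm) with hB
  have hBim : coord b '' (B '' M) = T '' K := by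
    rw [hKdef, image_image, image_image]
    refine image_congr fun x _ => ?_
    show coord b ((coord b).symm (T (coord b x))) = T (coord b x)
    rw [(coord b).apply_symm_apply]
  have hBdet : |B.det| = 1 := by
    have h1 : volume (B '' M) = volume M := by
      rw [← volume_coord_image b, hBim, hTv, hKdef, volume_coord_image]
    rw [Measure.addHaar_image_continuousLinearMap] at h1
    have h2 : ENNReal.ofReal |B.det| = 1 := by
      have h3 : ENNReal.ofReal |B.det| * volume M = 1 * volume M := by rw [h1, one_mul]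
      exact (ENNReal.mul_left_inj hVpos hVtop).1 h3
    rwa [ENNReal.ofReal_eq_one] at h2
  have h1 := hpos B hBdet
  rw [mom_coord b, mom_coord b (B '' M), hBim, hTm] at h1
  have hint : (interior K).Nonempty := by
    apply interior_coord_nonempty
    exact ⟨0, mem_interior_iff_mem_nhds.2 h0⟩
  have hfin : ∫⁻ p in K, wt p ≠ ∞ := by
    have hcont : Continuous (fun p : ℝ × (Fin m → ℝ) => p.1 ^ 2 + ∑ i, p.2 i ^ 2) := by fun_prop
    have h3 : IntegrableOn (fun p : ℝ × (Fin m → ℝ) => p.1 ^ 2 + ∑ i, p.2 i ^ 2) K volume :=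
      hcont.continuousOn.integrableOn_compact hK
    have h4 := h3.lintegral_lt_top
    exact h4.ne
  have hsym := moment_eq hK hKc hint hfin h1
  intro x hx
  obtain ⟨y, hy, hye⟩ := hsym (coord b x) ⟨x, hx, rfl⟩
  have : y = x - (2 * ⟪v, x⟫) • v := by
    apply (coord b).injective
    rw [hye, map_sub, map_smul, ← hb, coord_basis, ← coord_fst]
    refine Prod.ext ?_ ?_
    · simp; ring
    · simp
  rw [← this]; exact hy

/-- equality in Macbeath's inequality for symmetric bodies -/
theorem eq_ellipsoid {M : Set (EE m)} (hM : IsCompact M) (hMc : Convex ℝ M)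
    (h0 : M ∈ 𝓝 (0 : EE m)) (hneg : ∀ x ∈ M, -x ∈ M)
    {A : ℝ} (hA0 : 0 < A) (hA : PropD M A)
    (hv : volume M = kap (m + 1) * ENNReal.ofReal A) :
    ∃ T : EE m ≃ₗ[ℝ] EE m, M = T '' closedBall 0 1 := by
  obtain ⟨B0, hB0, hmin⟩ := exists_position hM h0
  have hdet : LinearMap.det (B0 : EE m →ₗ[ℝ] EE m) ≠ 0 := by
    intro h
    have : B0.det = 0 := h
    rw [this, abs_zero] at hB0
    exact zero_ne_one hB0
  set e : EE m ≃ₗ[ℝ] EE m := LinearMap.equivOfDetNeZero _ hdet with he
  have he' : ∀ x, e x = B0 x := fun x => rfl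
  have heim : e.toContinuousLinearEquiv '' M = B0 '' M := image_congr fun x _ => rfl
  set N : Set (EE m) := B0 '' M with hN
  have hNc : IsCompact N := hM.image B0.continuous
  have hNcv : Convex ℝ N := hMc.linear_image (B0 : EE m →ₗ[ℝ] EE m)
  have hN0 : N ∈ 𝓝 (0 : EE m) := by
    have h1 := e.toContinuousLinearEquiv.toHomeomorph.isOpenMap.image_mem_nhds h0
    have h2 : e.toContinuousLinearEquiv.toHomeomorph (0 : EE m) = 0 :=
      map_zero e.toContinuousLinearEquiv
    rw [h2] at h1
    rw [← heim]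
    exact h1
  have hNneg : ∀ x ∈ N, -x ∈ N := by
    rintro _ ⟨x, hx, rfl⟩
    exact ⟨-x, hneg x hx, by rw [map_neg]⟩
  have hNA := propD_image hA hB0
  have hNv : volume N = kap (m + 1) * ENNReal.ofReal A := by
    rw [hN, volume_image_of_det hB0, hv]
  have hNpos : ∀ B : EE m →L[ℝ] EE m, |B.det| = 1 → mom N ≤ mom (B '' N) := by
    intro B hB
    have h1 : B '' N = (B.comp B0) '' M := by
      rw [hN, image_image]
      rfl
    rw [h1]
    apply hmin
    have h2 : (B.comp B0).det = B.det * B0.det := by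
      rw [ContinuousLinearMap.det, ContinuousLinearMap.det, ContinuousLinearMap.det,
        ContinuousLinearMap.toLinearMap_comp, LinearMap.det_comp]
    rw [h2, abs_mul, hB, hB0, one_mul]
  obtain ⟨ρ, hρ, hball⟩ := eq_ball hNc hNcv ⟨0, mem_of_mem_nhds hN0⟩
    fun v hv1 => symm_of_position hNc hNcv hN0 hNneg hA0 hNA hNv hNpos hv1
  have hρpos : 0 < ρ := by
    rcases hρ.eq_or_lt with h | h
    · exfalso
      rw [← h, closedBall_zero] at hball
      have h1 : volume N ≠ 0 := (Measure.measure_pos_of_mem_nhds volume hN0).ne'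
      rw [hball] at h1
      simp at h1
    · exact h
  refine ⟨(LinearEquiv.smulOfNeZero ℝ (EE m) ρ hρpos.ne').trans e.symm, ?_⟩
  have h1 : M = e.symm '' N := by
    rw [hN, image_image]
    ext x
    constructor
    · intro hx
      exact ⟨x, hx, e.symm_apply_apply x⟩
    · rintro ⟨y, hy, rfl⟩
      have h5 : e.symm (B0 y) = y := e.symm_apply_apply y
      show e.symm (B0 y) ∈ M
      rw [h5]
      exact hy
  rw [h1, hball]
  ext x
  constructor
  · rintro ⟨y, hy, rfl⟩
    refine ⟨ρ⁻¹ • y, ?_, ?_⟩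
    · rw [mem_closedBall_zero_iff] at hy ⊢
      rw [norm_smul, norm_inv, Real.norm_eq_abs, abs_of_pos hρpos]
      rwa [inv_mul_le_iff₀ hρpos, mul_one]
    · show e.symm (ρ • ρ⁻¹ • y) = e.symm y
      rw [smul_smul, mul_inv_cancel₀ hρpos.ne', one_smul]
  · rintro ⟨y, hy, rfl⟩
    refine ⟨ρ • y, ?_, rfl⟩
    rw [mem_closedBall_zero_iff] at hy ⊢
    rw [norm_smul, Real.norm_eq_abs, abs_of_pos hρpos]
    nlinarith

end Pool.Agent.TH582.Mass
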