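import Pool.Agent.TH582.Mass.C

/-! The upper bound for `F` of bodies with equality in Macbeath's inequality. -/

set_option autoImplicit false
open MeasureTheory Set Module Filter Topology Metric TopologicalSpace
open scoped ENNReal RealInnerProductSpace Pointwise

namespace Pool.Agent.TH582.Mass

open Pool.Agent.Helper481.RH Pool.Agent.Helper481.MB

/-- Euclidean space -/
abbrev EE (m : ℕ) := EuclideanSpace ℝ (Fin (m + 1))

variable {m : ℕ}



lemma cdet_zero (s : Fin (m + 1) → ℝ) (y : Fin (m + 1) → Fin m → ℝ) (h0 : y 0 = 0) :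
    cdet s y = s 0 * (Matrix.of fun i k => y (Fin.succ k) i).det := by
  rw [cdet_eq, Fin.sum_univ_succ]
  have h1 : ∀ j : Fin m, (-1) ^ ((Fin.succ j : Fin (m + 1)) : ℕ) * s (Fin.succ j) *
      (Matrix.of fun i k => y ((Fin.succ j).succAbove k) i).det = 0 := by
    intro j
    have hm : 0 < m := j.pos
    obtain ⟨n, rfl⟩ : ∃ n, m = n + 1 := ⟨m - 1, by omega⟩
    have h2 : (Matrix.of fun (i : Fin (n + 1)) (k : Fin (n + 1)) =>
        y ((Fin.succ j).succAbove k) i).det = 0 := by
      apply Matrix.det_eq_zero_of_column_eq_zero 0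
      intro i
      rw [Matrix.of_apply, Fin.succ_succAbove_zero, h0]
      rfl
    rw [h2, mul_zero]
  rw [Finset.sum_eq_zero fun j _ => h1 j, add_zero]
  simp

lemma proj_bound {M : Set (EE m)} (hM : IsCompact M) (hMc : Convex ℝ M) {A : ℝ} (hA : PropD M A)
    (b : OrthonormalBasis (Fin (m + 1)) ℝ (EE m)) {t : EE m} (ht : t ∈ M) {c : ℝ} (hc : 0 < c)
    (htc : t = c • b 0) :
    volume (proj (coord b '' M)) ≤ kappa m * ENNReal.ofReal (A / c) := by
  have hK : IsCompact (coord b '' M) := hM.image (coord b).continuous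
  have hKc : Convex ℝ (coord b '' M) := hMc.linear_image (coord b).toLinearEquiv.toLinearMap
  apply macbeath_pi m (proj_compact hK) (proj_convex hKc)
  intro v hv
  choose p hp hpv using hv
  choose x hx hxp using hp
  have h1 := hA (Fin.cons t x) (by
    intro i
    refine Fin.cases ?_ (fun k => ?_) i
    · rw [Fin.cons_zero]; exact ht
    · rw [Fin.cons_succ]; exact hx k)
  rw [adet_coord b, cdet_zero] at h1
  · have h2 : (coord b ((Fin.cons t x : Fin (m + 1) → EE m) 0)).1 = c := by
      rw [Fin.cons_zero, htc, map_smul, coord_basis]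
      simp
    simp only [Fin.cons_succ] at h1
    rw [h2, abs_mul, abs_of_pos hc] at h1
    have h3 : (Matrix.of fun i k => (coord b (x k)).2 i) = (Matrix.of v).transpose := by
      ext i k
      rw [Matrix.of_apply, Matrix.transpose_apply, Matrix.of_apply, ← hpv k, ← hxp k]
    rw [h3, Matrix.det_transpose] at h1
    rw [le_div_iff₀ hc, mul_comm]
    exact h1
  · rw [Fin.cons_zero, htc, map_smul, coord_basis]
    simp

lemma vol_seg_bound {M : Set (EE m)} (hM : IsCompact M) (hMc : Convex ℝ M) {A : ℝ} (hA : PropD M A)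
    {t : EE m} (ht : t ∈ M) {r : ℝ} (hr : 0 ≤ r) :
    volume (seg M (r • t)) ≤ volume M + ENNReal.ofReal r * (kappa m * ENNReal.ofReal A) := by
  by_cases h0 : t = 0
  · have h1 : seg M (r • t) ⊆ M := by
      rintro _ ⟨x, hx, s, -, -, rfl⟩
      rw [h0]
      simpa using hx
    exact (measure_mono h1).trans le_self_add
  · have hpos : 0 < ‖t‖ := norm_pos_iff.2 h0
    obtain ⟨b, hb⟩ := exists_basis (v := (‖t‖)⁻¹ • t) (by
      rw [norm_smul, norm_inv, norm_norm, inv_mul_cancel₀ hpos.ne'])
    have htb : t = ‖t‖ • b 0 := by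
      rw [hb, smul_smul, mul_inv_cancel₀ hpos.ne', one_smul]
    have h1 := proj_bound hM hMc hA b ht hpos htb
    have hK : IsCompact (coord b '' M) := hM.image (coord b).continuous
    have hKc : Convex ℝ (coord b '' M) := hMc.linear_image (coord b).toLinearEquiv.toLinearMap
    have h2 : coord b (r • t) = (r * ‖t‖, 0) := by
      conv_lhs => rw [htb]
      rw [map_smul, map_smul, coord_basis]
      simp
    rw [← volume_coord_image b, coord_image_seg, h2, volume_seg hK hKc (by positivity),
      volume_coord_image]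
    refine add_le_add le_rfl ((mul_le_mul_right h1 _).trans (le_of_eq ?_))
    rw [ENNReal.ofReal_mul hr, ENNReal.ofReal_div_of_pos hpos]
    have h3 : ENNReal.ofReal ‖t‖ ≠ 0 := by simpa using h0
    rw [mul_assoc]
    congr 1
    rw [mul_left_comm]
    congr 1
    exact ENNReal.mul_div_cancel h3 ENNReal.ofReal_ne_top

lemma gauge_mem {M : Set (EE m)} (hM : IsCompact M) (hMc : Convex ℝ M) (h0 : M ∈ 𝓝 (0 : EE m)) (t : EE m) :
    ∃ t' ∈ M, t = gauge M t • t' := by
  have hab : Absorbent ℝ M := absorbent_nhds_zero h0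
  rcases (gauge_nonneg (s := M) t).eq_or_lt with h | h
  · have h1 : t = 0 := (gauge_eq_zero hab (NormedSpace.isVonNBounded_of_isBounded ℝ hM.isBounded)).1 h.symm
    exact ⟨0, mem_of_mem_nhds h0, by rw [h1]; simp⟩
  · refine ⟨(gauge M t)⁻¹ • t, ?_, ?_⟩
    · have h2 : gauge M ((gauge M t)⁻¹ • t) ≤ 1 := by
        rw [gauge_smul_of_nonneg (by positivity), smul_eq_mul, inv_mul_cancel₀ h.ne']
      rw [gauge_le_one_iff_mem_closure hMc h0, hM.isClosed.closure_eq] at h2
      exact h2
    · rw [smul_smul, mul_inv_cancel₀ h.ne', one_smul]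

lemma gauge_le_iff {M : Set (EE m)} (hM : IsCompact M) (hMc : Convex ℝ M) (h0 : M ∈ 𝓝 (0 : EE m))
    {u : ℝ} (hu : 0 < u) (t : EE m) : gauge M t ≤ u ↔ t ∈ u • M := by
  rw [mem_smul_set_iff_inv_smul_mem₀ hu.ne', ← hM.isClosed.closure_eq,
    ← gauge_le_one_iff_mem_closure hMc h0, hM.isClosed.closure_eq,
    gauge_smul_of_nonneg (by positivity), smul_eq_mul, inv_mul_le_iff₀ hu, mul_one]

/-- the integral of the gauge only depends on the volume -/
lemma lintegral_gauge {M : Set (EE m)} (hM : IsCompact M) (hMc : Convex ℝ M)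
    (h0 : M ∈ 𝓝 (0 : EE m)) :
    ∫⁻ t in M, ENNReal.ofReal (gauge M t) =
      ∫⁻ u in Ioi (0 : ℝ), if u < 1 then volume M - ENNReal.ofReal (u ^ (m + 1)) * volume M else 0 := by
  have hcont : Continuous (gauge M) := continuous_gauge hMc h0
  rw [lintegral_eq_lintegral_meas_lt (volume.restrict M)
    (Eventually.of_forall fun t => gauge_nonneg t) hcont.measurable.aemeasurable]
  refine setLIntegral_congr_fun measurableSet_Ioi fun u hu => ?_
  have hu' : (0 : ℝ) < u := hu
  have hms : MeasurableSet {a | u < gauge M a} := measurableSet_lt measurable_const hcont.measurable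
  rw [Measure.restrict_apply hms]
  have hle : ∀ t ∈ M, gauge M t ≤ 1 := fun t ht => gauge_le_one_of_mem ht
  split_ifs with h1
  · have h2 : {a | u < gauge M a} ∩ M = M \ (u • M) := by
      ext t
      simp only [mem_inter_iff, Set.mem_sdiff]
      constructor
      · rintro ⟨h3, h4⟩
        exact ⟨h4, fun h5 => absurd ((gauge_le_iff hM hMc h0 hu' t).2 h5) (not_le.2 h3)⟩
      · rintro ⟨h3, h4⟩
        exact ⟨not_le.1 fun h5 => h4 ((gauge_le_iff hM hMc h0 hu' t).1 h5), h3⟩
    have h3 : u • M ⊆ M := by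
      intro t ht
      rw [← gauge_le_iff hM hMc h0 hu'] at ht
      have := (gauge_le_one_iff_mem_closure hMc h0).1 (ht.trans h1.le)
      rwa [hM.isClosed.closure_eq] at this
    have h4 : volume (u • M) = ENNReal.ofReal (u ^ (m + 1)) * volume M := by
      rw [Measure.addHaar_smul_of_nonneg _ hu'.le]
      simp
    rw [h2, measure_sdiff h3 (hM.smul u).measurableSet.nullMeasurableSet
      (hM.smul u).measure_lt_top.ne, h4]
  · have h2 : {a | u < gauge M a} ∩ M = ∅ := by
      ext t
      simp only [mem_inter_iff, mem_empty_iff_false, iff_false, not_and]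
      intro h3 h4
      have := hle t h4
      have h5 : u < gauge M t := h3
      linarith [not_lt.1 h1]
    rw [h2, measure_empty]

/-- the upper bound for `F` -/
lemma FF_upper {M : Set (EE m)} (hM : IsCompact M) (hMc : Convex ℝ M) (h0 : M ∈ 𝓝 (0 : EE m))
    {A : ℝ} (hA : PropD M A) :
    FF M ≤ volume M * volume M + kappa m * ENNReal.ofReal A *
      ∫⁻ t in M, ENNReal.ofReal (gauge M t) := by
  unfold FF
  have hcont : Continuous (gauge M) := continuous_gauge hMc h0
  rw [← lintegral_const_mul _ hcont.measurable.ennreal_ofReal, ← setLIntegral_const,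
    ← lintegral_add_left measurable_const]
  refine setLIntegral_mono' hM.measurableSet fun t ht => ?_
  obtain ⟨t', ht', htt⟩ := gauge_mem hM hMc h0 t
  have h1 := vol_seg_bound hM hMc hA ht' (gauge_nonneg (s := M) t)
  rw [← htt] at h1
  rwa [mul_comm (ENNReal.ofReal (gauge M t))] at h1

lemma gauge_ball {ρ : ℝ} (hρ : 0 < ρ) (t : EE m) : gauge (closedBall (0 : EE m) ρ) t = ‖t‖ / ρ := by
  rw [gauge_closedBall hρ.le]

/-- the value of `F` for balls -/
lemma FF_ball {ρ : ℝ} (hρ : 0 < ρ) :
    volume (closedBall (0 : EE m) ρ) * volume (closedBall (0 : EE m) ρ) +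
      kappa m * ENNReal.ofReal (ρ ^ (m + 1)) *
        ∫⁻ t in closedBall (0 : EE m) ρ, ENNReal.ofReal (gauge (closedBall (0 : EE m) ρ) t) ≤
    FF (closedBall (0 : EE m) ρ) := by
  unfold FF
  have hM : IsCompact (closedBall (0 : EE m) ρ) := isCompact_closedBall _ _
  have hMc : Convex ℝ (closedBall (0 : EE m) ρ) := convex_closedBall _ _
  have hcont : Continuous (gauge (closedBall (0 : EE m) ρ)) :=
    continuous_gauge hMc (closedBall_mem_nhds _ hρ)
  rw [← lintegral_const_mul _ hcont.measurable.ennreal_ofReal, ← setLIntegral_const,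
    ← lintegral_add_left measurable_const]
  refine setLIntegral_mono' hM.measurableSet fun t ht => ?_
  rw [gauge_ball hρ]
  by_cases h0 : t = 0
  · rw [h0]
    simp only [norm_zero, zero_div, ENNReal.ofReal_zero, mul_zero, add_zero]
    exact measure_mono (subset_seg _ _)
  have hpos : 0 < ‖t‖ := norm_pos_iff.2 h0
  obtain ⟨b, hb⟩ := exists_basis (v := (‖t‖)⁻¹ • t) (by
    rw [norm_smul, norm_inv, norm_norm, inv_mul_cancel₀ hpos.ne'])
  have htb : t = ‖t‖ • b 0 := by
    rw [hb, smul_smul, mul_inv_cancel₀ hpos.ne', one_smul]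
  have hK : IsCompact (coord b '' closedBall (0 : EE m) ρ) := hM.image (coord b).continuous
  have hKc : Convex ℝ (coord b '' closedBall (0 : EE m) ρ) :=
    hMc.linear_image (coord b).toLinearEquiv.toLinearMap
  have h2 : coord b t = (‖t‖, 0) := by
    conv_lhs => rw [htb]
    rw [map_smul, coord_basis]
    simp
  rw [← volume_coord_image b (K := seg _ _), coord_image_seg, h2, volume_seg hK hKc (by positivity),
    volume_coord_image, volume_proj_ball b hρ.le, kap_eq]
  refine add_le_add le_rfl (le_of_eq ?_)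
  rw [mul_comm (ENNReal.ofReal (ρ ^ m)), mul_left_comm, ← ENNReal.ofReal_mul (norm_nonneg _),
    mul_assoc, ← ENNReal.ofReal_mul (by positivity)]
  congr 2
  field_simp
  ring

end Pool.Agent.TH582.Mass
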